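import Pool.Agent.Work.MP_0c3a8f_co.Stmts

/-!
# P: Perron vector and Rayleigh quotient
-/

open Finset

namespace MP0c3a8f

namespace P

variable {V : Type} [Fintype V] {G : SimpleGraph V}

omit [Fintype V] in
theorem adj_nonneg (i j : V) : 0 ≤ adj G i j := by
  unfold adj; split_ifs <;> norm_num

omit [Fintype V] in
theorem adj_comm (i j : V) : adj G i j = adj G j i := by
  unfold adj
  by_cases h : G.Adj i j
  · rw [if_pos h, if_pos h.symm]
  · rw [if_neg h, if_neg fun h' => h h'.symm]

/-- The bilinear form. -/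
noncomputable def B (G : SimpleGraph V) (z w : V → ℝ) : ℝ := ∑ i, z i * ∑ j, adj G i j * w j

theorem qf_eq (z : V → ℝ) : qf G z = B G z z := by
  unfold qf B
  refine Finset.sum_congr rfl fun i _ => ?_
  rw [Finset.mul_sum]
  refine Finset.sum_congr rfl fun j _ => ?_
  ring

theorem B_comm (z w : V → ℝ) : B G z w = B G w z := by
  unfold B
  simp only [Finset.mul_sum]
  rw [Finset.sum_comm]
  refine Finset.sum_congr rfl fun i _ => Finset.sum_congr rfl fun j _ => ?_
  rw [adj_comm]
  ring

theorem B_add (z w u : V → ℝ) (t : ℝ) :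
    B G (fun i => z i + t * w i) u = B G z u + t * B G w u := by
  unfold B
  rw [Finset.mul_sum, ← Finset.sum_add_distrib]
  refine Finset.sum_congr rfl fun i _ => ?_
  ring

theorem qf_add (z w : V → ℝ) (t : ℝ) :
    qf G (fun i => z i + t * w i) = qf G z + 2 * t * B G w z + t ^ 2 * qf G w := by
  rw [qf_eq, qf_eq, qf_eq, B_add, B_comm z, B_comm w (fun i => z i + t * w i), B_add, B_add,
    B_comm z w]
  ring

theorem continuous_qf : Continuous (fun z : V → ℝ => qf G z) := by
  unfold qf
  fun_prop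

theorem qf_abs (z : V → ℝ) : qf G z ≤ qf G (fun i => |z i|) := by
  unfold qf
  refine Finset.sum_le_sum fun i _ => Finset.sum_le_sum fun j _ => ?_
  refine mul_le_mul_of_nonneg_left ?_ (adj_nonneg i j)
  rw [← abs_mul]
  exact le_abs_self _

theorem isCompact_sphere : IsCompact {z : V → ℝ | ∑ i, z i ^ 2 = 1} := by
  refine IsCompact.of_isClosed_subset (isCompact_univ_pi fun _ : V => isCompact_Icc (a := (-1 : ℝ))
    (b := 1)) (isClosed_eq (by fun_prop) continuous_const) ?_
  intro z hz i _
  have h1 : z i ^ 2 ≤ 1 := by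
    rw [← (show ∑ i, z i ^ 2 = 1 from hz)]
    exact Finset.single_le_sum (f := fun i => z i ^ 2) (fun i _ => sq_nonneg _) (Finset.mem_univ i)
  exact ⟨by nlinarith, by nlinarith⟩

theorem main [Nonempty V] (G : SimpleGraph V) :
    0 ≤ lam G ∧ (∀ z : V → ℝ, qf G z ≤ lam G * ∑ i, z i ^ 2) ∧
    ∃ x : V → ℝ, (∀ i, 0 ≤ x i) ∧ ∑ i, x i ^ 2 = 1 ∧ ∀ i, ∑ j, adj G i j * x j = lam G * x i := by
  classical
  have hsingle : ∀ i : V, ∑ j, (Pi.single i (1 : ℝ) : V → ℝ) j ^ 2 = 1 := by
    intro i
    rw [Finset.sum_eq_single i]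
    · simp
    · intro j _ hj
      simp [Pi.single_eq_of_ne hj]
    · intro h
      exact absurd (Finset.mem_univ i) h
  obtain ⟨i0⟩ := ‹Nonempty V›
  obtain ⟨z0, hz0, hmax⟩ := (isCompact_sphere (V := V)).exists_isMaxOn
    ⟨Pi.single i0 1, hsingle i0⟩ (continuous_qf (G := G)).continuousOn
  set M := qf G z0 with hM
  have hmax' : ∀ z : V → ℝ, ∑ i, z i ^ 2 = 1 → qf G z ≤ M := fun z hz => hmax hz
  -- homogeneity
  have hhom : ∀ z : V → ℝ, qf G z ≤ M * ∑ i, z i ^ 2 := by
    intro z
    set n := ∑ i, z i ^ 2 with hn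
    have hn0 : 0 ≤ n := Finset.sum_nonneg fun i _ => sq_nonneg _
    rcases hn0.eq_or_lt with h0 | h0
    · have hz : ∀ i, z i = 0 := by
        intro i
        have := (Finset.sum_eq_zero_iff_of_nonneg (fun i _ => sq_nonneg (z i))).1 h0.symm i
          (Finset.mem_univ i)
        exact pow_eq_zero_iff (two_ne_zero) |>.1 this
      have : qf G z = 0 := by
        unfold qf
        simp [hz]
      rw [this, ← h0]
      simp
    · have hs : 0 < Real.sqrt n := Real.sqrt_pos.2 h0
      have hs2 : Real.sqrt n ^ 2 = n := Real.sq_sqrt hn0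
      have h1 : ∑ i, ((Real.sqrt n)⁻¹ * z i) ^ 2 = 1 := by
        simp only [mul_pow]
        rw [← Finset.mul_sum, ← hn, inv_pow, hs2, inv_mul_cancel₀ h0.ne']
      have h2 := hmax' _ h1
      have h3 : qf G (fun i => (Real.sqrt n)⁻¹ * z i) = n⁻¹ * qf G z := by
        unfold qf
        rw [Finset.mul_sum]
        refine Finset.sum_congr rfl fun i _ => ?_
        rw [Finset.mul_sum]
        refine Finset.sum_congr rfl fun j _ => ?_
        have : n⁻¹ = (Real.sqrt n)⁻¹ * (Real.sqrt n)⁻¹ := by
          rw [← mul_inv, ← sq, hs2]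
        rw [this]
        ring
      rw [h3, inv_mul_le_iff₀ h0] at h2
      linarith
  -- the nonnegative maximiser
  set x : V → ℝ := fun i => |z0 i| with hx
  have hx0 : ∀ i, 0 ≤ x i := fun i => abs_nonneg _
  have hx1 : ∑ i, x i ^ 2 = 1 := by
    simp only [hx, sq_abs]
    exact hz0
  have hxM : qf G x = M := le_antisymm (hmax' x hx1) (qf_abs z0)
  have heig : ∀ i, ∑ j, adj G i j * x j = M * x i := by
    intro i
    set w : V → ℝ := Pi.single i 1 with hw
    have hBw : B G w x = ∑ j, adj G i j * x j := by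
      unfold B
      rw [Finset.sum_eq_single i]
      · simp [hw]
      · intro j _ hj
        simp [hw, Pi.single_eq_of_ne hj]
      · intro h
        exact absurd (Finset.mem_univ i) h
    have hww : ∑ j, w j ^ 2 = 1 := hsingle i
    have hwx : ∑ j, w j * x j = x i := by
      rw [Finset.sum_eq_single i]
      · simp [hw]
      · intro j _ hj
        simp [hw, Pi.single_eq_of_ne hj]
      · intro h
        exact absurd (Finset.mem_univ i) h
    set a := B G w x - M * x i with ha
    set b := qf G w - M with hb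
    have hb0 : b ≤ 0 := by
      have := hmax' w hww
      linarith
    have hquad : ∀ t : ℝ, 2 * t * a + t ^ 2 * b ≤ 0 := by
      intro t
      have h1 := hhom (fun j => x j + t * w j)
      have h2 : ∑ j, (x j + t * w j) ^ 2 = 1 + 2 * t * x i + t ^ 2 := by
        have : ∀ j, (x j + t * w j) ^ 2 = x j ^ 2 + 2 * t * (w j * x j) + t ^ 2 * w j ^ 2 := by
          intro j; ring
        simp only [this]
        rw [Finset.sum_add_distrib, Finset.sum_add_distrib, ← Finset.mul_sum, ← Finset.mul_sum,
          hx1, hwx, hww]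
        ring
      rw [qf_add, h2, hxM] at h1
      have : 2 * t * a + t ^ 2 * b =
          (M + 2 * t * B G w x + t ^ 2 * qf G w) - M * (1 + 2 * t * x i + t ^ 2) := by
        rw [ha, hb]; ring
      rw [this]
      linarith
    have ha0 : a = 0 := by
      by_contra hne
      have hapos : 0 < a ^ 2 := by positivity
      have h1 := hquad (a / (1 - b))
      have hb1 : 0 < 1 - b := by linarith
      have h2 : 2 * (a / (1 - b)) * a + (a / (1 - b)) ^ 2 * b =
          a ^ 2 * (2 * (1 - b) + b) / (1 - b) ^ 2 := by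
        field_simp
      rw [h2] at h1
      have h3 : 0 < a ^ 2 * (2 * (1 - b) + b) / (1 - b) ^ 2 := by
        apply div_pos (mul_pos hapos (by linarith)) (by positivity)
      linarith
    rw [← hBw]
    linarith
  have hxne : x ≠ 0 := by
    intro h
    rw [h] at hx1
    simp at hx1
  have hgr : IsGreatest {μ : ℝ | ∃ x : V → ℝ, x ≠ 0 ∧ ∀ i, ∑ j, adj G i j * x j = μ * x i} M := by
    refine ⟨⟨x, hxne, heig⟩, ?_⟩
    rintro μ ⟨z, hz, hzμ⟩
    have h1 : qf G z = μ * ∑ i, z i ^ 2 := by
      rw [qf_eq]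
      unfold B
      rw [Finset.mul_sum]
      refine Finset.sum_congr rfl fun i _ => ?_
      rw [hzμ i]
      ring
    have h2 := hhom z
    rw [h1] at h2
    have h3 : 0 < ∑ i, z i ^ 2 := by
      obtain ⟨i, hi⟩ := Function.ne_iff.1 hz
      exact Finset.sum_pos' (fun i _ => sq_nonneg _)
        ⟨i, Finset.mem_univ i, by have : z i ≠ 0 := hi; positivity⟩
    exact le_of_mul_le_mul_right h2 h3
  have hlam : lam G = M := hgr.csSup_eq
  have hM0 : 0 ≤ M := by
    have h1 := hhom (Pi.single i0 1)
    rw [hsingle i0, mul_one] at h1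
    have h2 : 0 ≤ qf G (Pi.single i0 1) := by
      unfold qf
      refine Finset.sum_nonneg fun i _ => Finset.sum_nonneg fun j _ => ?_
      refine mul_nonneg (adj_nonneg i j) (mul_nonneg ?_ ?_)
      · by_cases h : i = i0
        · subst h; simp
        · simp [Pi.single_eq_of_ne h]
      · by_cases h : j = i0
        · subst h; simp
        · simp [Pi.single_eq_of_ne h]
    linarith
  rw [hlam]
  exact ⟨hM0, hhom, x, hx0, hx1, heig⟩

end P

theorem prfP : P_statement := by
  intro V _ _ G
  exact P.main G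

end MP0c3a8f
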