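import Pool.Agent.Work.MP_0c3a8f_co.Defs

/-!
# MP_0c3a8f_co: the statements of all items

`β = 1 - 1/r`, `y i = x i ^ 2`.  The proofs are in the specifications (table `helpwanted`).
-/

open Finset

namespace MP0c3a8f

/-- (P) Perron–Frobenius and Rayleigh -/
def P_statement : Prop :=
  ∀ (V : Type) [Fintype V] [Nonempty V] (G : SimpleGraph V),
    0 ≤ lam G ∧ (∀ z : V → ℝ, qf G z ≤ lam G * ∑ i, z i ^ 2) ∧
    ∃ x : V → ℝ, (∀ i, 0 ≤ x i) ∧ ∑ i, x i ^ 2 = 1 ∧ ∀ i, ∑ j, adj G i j * x j = lam G * x i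

/-- (EDG) handshake -/
def EDG_statement : Prop :=
  ∀ (V : Type) [Fintype V] (G : SimpleGraph V),
    ∑ i, ∑ j, adj G i j = 2 * (G.edgeSet.ncard : ℝ)

/-- (ISO) the spectral radius is an isomorphism invariant -/
def ISO_statement : Prop :=
  ∀ (V U : Type) [Fintype V] [Fintype U] (G : SimpleGraph V) (H : SimpleGraph U),
    Nonempty (G ≃g H) → lam G = lam H

/-- (CRT) -/
def CRT_statement : Prop :=
  ∀ (W : Type) [Fintype W] (F : SimpleGraph W) (r : ℕ), F.chromaticNumber = r + 1 →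
    ColorCritical F → Crit r F ∧ ¬ F.Colorable r ∧ F.Colorable (r + 1)

/-- (KCC) complete graphs are color-critical -/
def KCC_statement : Prop :=
  ∀ r : ℕ, 3 ≤ r → (⊤ : SimpleGraph (Fin (r + 1))).chromaticNumber = r + 1 ∧
    ColorCritical (⊤ : SimpleGraph (Fin (r + 1)))

/-- (G3) most of the weight is on the edges of order `1 / sqrt m` -/
def G3_statement : Prop :=
  ∀ (r : ℕ) (ε : ℝ), 3 ≤ r → 0 < ε → ∃ K ≥ (1 : ℝ), ∃ ε₀ > (0 : ℝ),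
    ∀ (V : Type) [Fintype V] (G : SimpleGraph V) (x : V → ℝ) (l : ℝ) (m : ℕ), Data G x l m →
      (2 * (1 - 1 / (r : ℝ)) - ε₀) * m ≤ l ^ 2 →
      1 - 1 / (r : ℝ) - ε ≤ qf (mid G x K m) (fun i => x i ^ 2)

open Classical in
/-- (BU) blow-up lemma for weighted `k`-partite hypergraphs -/
def BU_statement : Prop :=
  ∀ (τ k : ℕ) (η : ℝ), 0 < η → ∃ δ > (0 : ℝ), ∀ (V : Type) [Fintype V] (y : V → ℝ)
    (E : Set (Fin k → V)), (∀ i, 0 ≤ y i) → ∑ i, y i ≤ 1 → (∀ i, y i ≤ δ) →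
    (η ≤ ∑ v : Fin k → V, if v ∈ E then ∏ t, y (v t) else 0) →
    ∃ e : Fin k → Fin τ → V, (∀ t, Function.Injective (e t)) ∧
      ∀ c : Fin k → Fin τ, (fun t => e t (c t)) ∈ E

open Classical in
/-- (AVG) the inequalities behind the theorem of Moon and Moser -/
def AVG_statement : Prop :=
  ∀ (V : Type) [Fintype V] (G : SimpleGraph V) (y : V → ℝ) (k : ℕ), (∀ i, 0 ≤ y i) →
    ∑ i, y i = 1 →
    (((k : ℝ) + 1) * hh G y (k + 1) ^ 2 ≤ hh G y k *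
      ((∑ v : Fin (k + 1) → V, if cl G v then (∏ t, y (v t)) * gg G y v else 0)
        + ((k : ℝ) + 1) * hh G y (k + 2))) ∧
    (∀ t : Fin (k + 1),
      (∑ v : Fin (k + 1) → V, if cl G v then (∏ t, y (v t)) * ii G y v t else 0)
        ≤ hh G y (k + 2)) ∧
    (∀ v : Fin (k + 1) → V, gg G y v + dd G y v ≤ 1) ∧
    hh G y (k + 1) = (∑ v : Fin k → V, if cl G v then (∏ t, y (v t)) * dd G y v else 0)

/-- (MM) Moon–Moser chain -/
def MM_statement : Prop :=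
  ∀ (V : Type) [Fintype V] (G : SimpleGraph V) (y : V → ℝ), (∀ i, 0 ≤ y i) → ∑ i, y i = 1 →
    hh G y 1 = 1 ∧ hh G y 2 = qf G y ∧
    ∀ k : ℕ, 0 ≤ hh G y k ∧ hh G y (k + 1) ≤ hh G y k ∧
      (1 - (k : ℝ) * (1 - qf G y)) * hh G y k ≤ hh G y (k + 1)

/-- (CLQ) a clique with `r` vertices which gives a good partition -/
def CLQ_statement : Prop :=
  ∀ (r : ℕ) (ε : ℝ), 2 ≤ r → 0 < ε → ∃ ε₁ > (0 : ℝ), ∃ η > (0 : ℝ),
    ∀ (V : Type) [Fintype V] (G : SimpleGraph V) (y : V → ℝ), (∀ i, 0 ≤ y i) →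
      ∑ i, y i = 1 → 1 - 1 / (r : ℝ) - ε₁ ≤ qf G y → hh G y (r + 1) ≤ η →
      ∃ v : Fin r → V, cl G v ∧ 1 - ε ≤ gg G y v ∧ ∑ t, ii G y v t ≤ ε

/-- (PRT) the partition of a graph with few `(r+1)`-cliques -/
def PRT_statement : Prop :=
  ∀ (r : ℕ) (ε : ℝ), 3 ≤ r → 0 < ε → ∃ ε₁ > (0 : ℝ), ∃ η > (0 : ℝ),
    ∀ (V : Type) [Fintype V] (G : SimpleGraph V) (y : V → ℝ), (∀ i, 0 ≤ y i) →
      ∑ i, y i = 1 → 1 - 1 / (r : ℝ) - ε₁ ≤ qf G y → hh G y (r + 1) ≤ η →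
      ∃ f : V → Option (Fin r),
        (∀ i, f i ≠ none → ∃ j k, G.Adj i j ∧ G.Adj i k ∧ G.Adj j k) ∧
        (∀ t, |cw y f (some t) - 1 / (r : ℝ)| ≤ ε) ∧ cw y f none ≤ ε ∧ miss G y f ≤ ε

/-- (STB) the partition of an `F`-free graph -/
def STB_statement : Prop :=
  ∀ (W : Type) [Fintype W] (F : SimpleGraph W) (r : ℕ) (ε : ℝ), 3 ≤ r → F.Colorable (r + 1) →
    0 < ε → ∃ ε₀ > (0 : ℝ), ∃ m₀ : ℕ, ∀ (V : Type) [Fintype V] (G : SimpleGraph V)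
      (x : V → ℝ) (l : ℝ) (m : ℕ), F.Free G → Data G x l m → m₀ ≤ m →
      (2 * (1 - 1 / (r : ℝ)) - ε₀) * m ≤ l ^ 2 →
      ∃ f : V → Option (Fin r), (∀ i, f i ≠ none → x i ^ 2 ≤ ε) ∧
        (∀ t, |cw (fun i => x i ^ 2) f (some t) - 1 / (r : ℝ)| ≤ ε) ∧
        cw (fun i => x i ^ 2) f none ≤ ε ∧ miss G (fun i => x i ^ 2) f ≤ ε

/-- (E1) embedding of `F` with one additional vertex -/
def E1_statement : Prop :=
  ∀ (W : Type) [Fintype W] (F : SimpleGraph W) (r : ℕ), Crit r F →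
    ∀ (V : Type) (G : SimpleGraph V) (w : V) (e : Fin r → Fin (Fintype.card W) → V),
      (∀ t, Function.Injective (e t)) → (∀ s t i j, s ≠ t → G.Adj (e s i) (e t j)) →
      (∀ t i, G.Adj w (e t i)) → ¬ F.Free G

/-- (E2) embedding of `F` with one additional edge -/
def E2_statement : Prop :=
  ∀ (W : Type) [Fintype W] (F : SimpleGraph W) (r : ℕ), Crit r F →
    ∀ (V : Type) (G : SimpleGraph V) (w w' : V) (t₀ : Fin r)
      (e : Fin r → Fin (Fintype.card W) → V),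
      (∀ t, Function.Injective (e t)) → (∀ s t i j, s ≠ t → G.Adj (e s i) (e t j)) →
      G.Adj w w' → (∀ t i, t ≠ t₀ → G.Adj w (e t i) ∧ G.Adj w' (e t i)) →
      (∀ i, e t₀ i ≠ w ∧ e t₀ i ≠ w') → ¬ F.Free G

/-- (COR) the corrected partition -/
def COR_statement : Prop :=
  ∀ (W : Type) [Fintype W] (F : SimpleGraph W) (r : ℕ) (ρ : ℝ), 3 ≤ r → Crit r F → 0 < ρ →
    ∃ ε > (0 : ℝ), ∀ (V : Type) [Fintype V] (G : SimpleGraph V) (y : V → ℝ)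
      (f₀ : V → Option (Fin r)), F.Free G → (∀ i, 0 ≤ y i) → ∑ i, y i = 1 →
      (∀ i, f₀ i ≠ none → y i ≤ ε) → (∀ t, |cw y f₀ (some t) - 1 / (r : ℝ)| ≤ ε) →
      cw y f₀ none ≤ ε → miss G y f₀ ≤ ε →
      ∃ f : V → Option (Fin r), Indep G f ∧ cw y f none ≤ ρ ∧
        ∀ w, f w = none → nb G y w ≤ 1 - 1 / (r : ℝ) - 1 / (16 * (r : ℝ))

/-- (KEY) the main inequality -/
def KEY_statement : Prop :=
  ∀ (r : ℕ) (γ : ℝ) (V : Type) [Fintype V] (G : SimpleGraph V) (x : V → ℝ) (l : ℝ) (m : ℕ)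
    (f : V → Option (Fin r)), 2 ≤ r → 0 < γ → Data G x l m → Indep G f →
    (∀ w, f w = none → nb G (fun i => x i ^ 2) w ≤ 1 - 1 / (r : ℝ) - γ) →
    cw (fun i => x i ^ 2) f none ≤ γ →
    2 * m * (γ * cw (fun i => x i ^ 2) f none
      + ∑ t, (cw (fun i => x i ^ 2) f (some t) - (1 - cw (fun i => x i ^ 2) f none) / r) ^ 2
      + miss G (fun i => x i ^ 2) f + vE G x (l / (2 * m)))
    ≤ 2 * (1 - 1 / (r : ℝ)) * m - l ^ 2

/-- (NRM) all `z i` are close to `1` or to `0` -/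
def NRM_statement : Prop :=
  ∀ (r : ℕ) (δ C₁ : ℝ), 3 ≤ r → 0 < δ → 0 < C₁ → ∃ Q₀ > (0 : ℝ),
    ∀ (V : Type) [Fintype V] (G : SimpleGraph V) (z : V → ℝ) (f : V → Option (Fin r)),
      (∀ i, 0 ≤ z i) → ∑ i, ∑ j, adj G i j * (z i * z j - 1) ^ 2 ≤ C₁ →
      miss G (fun i => z i ^ 2) f ≤ C₁ →
      (∀ t, Q₀ ≤ cw (fun i => z i ^ 2) f (some t)) →
      cw (fun i => z i ^ 2) f none ≤ δ ^ 2 →
      ∀ i, (f i ≠ none ∧ |z i - 1| ≤ δ) ∨ z i ≤ δ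

/-- (CNV) lower bounds by the numbers of modified edges -/
def CNV_statement : Prop :=
  ∀ (r : ℕ) (δ : ℝ) (V : Type) [Fintype V] (G : SimpleGraph V) (z : V → ℝ)
    (g : V → Option (Fin r)), 0 < δ → δ ≤ 1 / 8 → (∀ i, 0 ≤ z i) →
    (∀ i, g i = none → z i ≤ δ) → (∀ i, g i ≠ none → |z i - 1| ≤ δ) →
    2 * (1 - 4 * δ) * (outSet G g).ncard ≤ ∑ i, ∑ j, adj G i j * (z i * z j - 1) ^ 2 ∧
    2 * (1 - 4 * δ) * (missSet G g).ncard ≤ miss G (fun i => z i ^ 2) g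

/-- (YU) the vertices outside of the parts -/
def YU_statement : Prop :=
  ∀ (r : ℕ) (V : Type) [Fintype V] (G : SimpleGraph V) (x : V → ℝ) (l : ℝ) (m : ℕ)
    (g : V → Option (Fin r)) (B : ℝ), Data G x l m → (∀ i, x i ≤ B) →
    l * cw (fun i => x i ^ 2) g none ≤ 2 * (outSet G g).ncard * B ^ 2 ∧
    ∀ w, g w = none → nb G (fun i => x i ^ 2) w ≤ (outSet G g).ncard * B ^ 2

/-- (BAL) parts of different size have different weights -/
def BAL_statement : Prop :=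
  ∀ N : ℕ, ∃ m₀ : ℕ, ∀ (r : ℕ) (V : Type) [Fintype V] (G : SimpleGraph V) (x : V → ℝ) (l : ℝ)
    (m : ℕ) (g : V → Option (Fin r)), 3 ≤ r → Data G x l m → m₀ ≤ m → (m : ℝ) ≤ l ^ 2 →
    Indep G g → (∀ i, g i ≠ none → 9 / 10 * Real.sqrt (l / (2 * m)) ≤ x i) →
    (∀ i, x i ≤ 11 / 10 * Real.sqrt (l / (2 * m))) →
    cw (fun i => x i ^ 2) g none ≤ 1 / 10 → (∀ t, ∃ i, g i = some t) →
    (missSet G g).ncard + (outSet G g).ncard ≤ N →
    ∀ s t, (({i | g i = some s}.ncard : ℝ) - ({i | g i = some t}.ncard : ℝ)) ^ 2 / 10 ^ 6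
      ≤ m * (cw (fun i => x i ^ 2) g (some s) - cw (fun i => x i ^ 2) g (some t)) ^ 2

/-- (STR) the structure of the `F`-free graphs with large spectral radius -/
def STR_statement : Prop :=
  ∀ (W : Type) [Fintype W] (F : SimpleGraph W) (r : ℕ), 3 ≤ r → Crit r F →
    F.Colorable (r + 1) → ∀ (C ε : ℝ) (s₁ : ℕ), 0 < ε → ∃ m₀ : ℕ,
    ∀ (V : Type) [Fintype V] (G : SimpleGraph V), F.Free G → m₀ ≤ G.edgeSet.ncard →
      2 * (1 - 1 / (r : ℝ)) * G.edgeSet.ncard - C ≤ lam G ^ 2 →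
      ∃ g : V → Option (Fin r), Indep G g ∧ (∀ t, s₁ ≤ {i | g i = some t}.ncard) ∧
        ∀ s t, 2 * (1 - 1 / (r : ℝ)) * ((missSet G g).ncard + (outSet G g).ncard)
          + (({i | g i = some s}.ncard : ℝ) - ({i | g i = some t}.ncard : ℝ)) ^ 2 / 10 ^ 6
          ≤ 2 * (1 - 1 / (r : ℝ)) * G.edgeSet.ncard - lam G ^ 2 + ε

/-- (RED) reduction of the size of the parts -/
def RED_statement : Prop :=
  ∀ (W : Type) [Fintype W] (F : SimpleGraph W) (r s : ℕ) (V : Type) [Fintype V]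
    (G : SimpleGraph V) (g : V → Option (Fin r)), 3 ≤ r → Indep G g →
    2 * ((missSet G g).ncard + (outSet G g).ncard) + 1 ≤ s →
    (∀ t, s ≤ {i | g i = some t}.ncard) → F.Free G → ¬ G.Colorable r →
    (∀ v, ∃ w, G.Adj v w) →
    ∃ (k : ℕ) (H : SimpleGraph (Fin k)) (f : Fin k → Option (Fin r)),
      IsMod r s (missSet G g).ncard (outSet G g).ncard H f ∧ F.Free H ∧ ¬ H.Colorable r ∧
      ∀ v, ∃ w, H.Adj v w

/-- (NON) there is a type -/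
def NON_statement : Prop :=
  ∀ (W : Type) [Fintype W] (F : SimpleGraph W) (r : ℕ), 3 ≤ r → ¬ F.Colorable r →
    ∃ b, Real r F 0 b

/-- (GRD) greedy colouring -/
def GRD_statement : Prop :=
  ∀ (r : ℕ) (V : Type) [Fintype V] (G : SimpleGraph V) (S : Set V) (c : V → Fin r),
    (∀ u v, u ∈ S → v ∈ S → G.Adj u v → c u ≠ c v) →
    (∀ v, v ∉ S → {w | G.Adj v w}.ncard < r) → G.Colorable r

/-- (TYP) -/
def TYP_statement : Prop :=
  ∀ (r s a b : ℕ) (V : Type) [Fintype V] (G : SimpleGraph V) (f : V → Option (Fin r)),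
    IsMod r s a b G f → ¬ G.Colorable r → r ≤ b

/-- (CNT) number of edges -/
def CNT_statement : Prop :=
  ∀ (r s a b : ℕ) (V : Type) [Fintype V] (G : SimpleGraph V) (f : V → Option (Fin r)),
    IsMod r s a b G f → G.edgeSet.ncard + a = r.choose 2 * s ^ 2 + b

/-- (LOW) lower bound for the spectral radius -/
def LOW_statement : Prop :=
  ∀ (r s a b : ℕ) (V : Type) [Fintype V] (G : SimpleGraph V) (f : V → Option (Fin r)),
    2 ≤ r → 1 ≤ s → IsMod r s a b G f →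
    2 * (1 - 1 / (r : ℝ)) * (G.edgeSet.ncard - a - b) ≤ lam G ^ 2

/-- (MAXE) there is a maximiser -/
def MAXE_statement : Prop :=
  ∀ (W : Type) (F : SimpleGraph W) (r m : ℕ),
    (∃ (V : Type) (_ : Fintype V) (G : SimpleGraph V), InN r m F G) →
    ∃ (k : ℕ) (G : SimpleGraph (Fin k)), InN r m F G ∧
      ∀ (V : Type) [Fintype V] (H : SimpleGraph V), InN r m F H → lam H ≤ lam G

/-- (CLS) the new vertex of a graph of type `(a, r)` -/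
def CLS_statement : Prop :=
  ∀ (r s a : ℕ) (V : Type) [Fintype V] (G : SimpleGraph V) (f : V → Option (Fin r)),
    3 ≤ r → IsMod r s a r G f → ¬ G.Colorable r → (∀ v, ∃ w, G.Adj v w) →
    ∃ (u : V) (q : Fin r → V), (∀ v, f v = none ↔ v = u) ∧ (∀ t, f (q t) = some t) ∧
      ∀ w, G.Adj u w ↔ ∃ t, w = q t

/-- (TUC) -/
def TUC_statement : Prop :=
  ∀ (r s : ℕ) (V : Type) [Fintype V] (G : SimpleGraph V) (f : V → Option (Fin r)),
    3 ≤ r → IsMod r s 0 r G f → ¬ G.Colorable r → (∀ v, ∃ w, G.Adj v w) →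
    Nonempty (G ≃g TU r s)

/-- (TUMC) -/
def TUMC_statement : Prop :=
  ∀ (r s : ℕ) (V : Type) [Fintype V] (G : SimpleGraph V) (f : V → Option (Fin r)),
    3 ≤ r → IsMod r s 1 r G f → ¬ G.Colorable r → (∀ v, ∃ w, G.Adj v w) →
    (⊤ : SimpleGraph (Fin (r + 1))).Free G → Nonempty (G ≃g TUM r s)

/-- (TUP) -/
def TUP_statement : Prop :=
  ∀ r s : ℕ, 3 ≤ r → 1 ≤ s → (∃ f, IsMod r s 0 r (TU r s) f) ∧ ¬ (TU r s).Colorable r ∧
    (∀ v, ∃ w, (TU r s).Adj v w) ∧ ¬ (⊤ : SimpleGraph (Fin (r + 1))).Free (TU r s)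

/-- (TUMP) -/
def TUMP_statement : Prop :=
  ∀ r s : ℕ, 3 ≤ r → 2 ≤ s → (∃ f, IsMod r s 1 r (TUM r s) f) ∧ ¬ (TUM r s).Colorable r ∧
    (∀ v, ∃ w, (TUM r s).Adj v w) ∧ (⊤ : SimpleGraph (Fin (r + 1))).Free (TUM r s)

/-- (FINL) the final argument -/
def FINL_statement : Prop :=
  ∀ (W : Type) [Fintype W] (F : SimpleGraph W) (r a b : ℕ), 3 ≤ r → Crit r F →
    F.Colorable (r + 1) → Real r F a b → (∀ a' b', Real r F a' b' → a + b ≤ a' + b') →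
    (∀ ε > (0 : ℝ), ∃ m₀ : ℕ, ∀ m ≥ m₀, ∀ (V : Type) [Fintype V] (G : SimpleGraph V),
      InN r m F G → lam G ^ 2 ≤ 2 * (1 - 1 / (r : ℝ)) * ((m : ℝ) - a - b) + ε) ∧
    ∃ s₀ : ℕ, ∀ s ≥ s₀, ∀ m, m + a = r.choose 2 * s ^ 2 + b →
      (∃ (k : ℕ) (G : SimpleGraph (Fin k)), InN r m F G ∧
        2 * (1 - 1 / (r : ℝ)) * ((m : ℝ) - a - b) ≤ lam G ^ 2) ∧
      ∀ (V : Type) [Fintype V] (G : SimpleGraph V), InN r m F G →
        2 * (1 - 1 / (r : ℝ)) * ((m : ℝ) - a - b) ≤ lam G ^ 2 → ∃ f, IsMod r s a b G f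

end MP0c3a8f
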