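import Pool.Agent.Work.MP_0c3a8f_co.Stmts

/-!
# MP_0c3a8f_co, item BAL (helper40)
-/

open Finset

namespace MP0c3a8f

namespace BAL

variable {V : Type} [Fintype V] {r : ℕ}

/-- missing pairs and edges to the outside -/
def Dp (G : SimpleGraph V) (g : V → Option (Fin r)) (i j : V) : Prop :=
  (g j = none ∧ G.Adj i j) ∨ (g j ≠ none ∧ g j ≠ g i ∧ ¬ G.Adj i j)

open Classical in
/-- the number of the pairs at `i` -/
noncomputable def dg (G : SimpleGraph V) (g : V → Option (Fin r)) (i : V) : ℝ :=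
  ∑ j, if Dp G g i j then (1 : ℝ) else 0

open Classical in
/-- total weight of the parts -/
noncomputable def XX (x : V → ℝ) (g : V → Option (Fin r)) : ℝ :=
  ∑ j, if g j = none then 0 else x j

open Classical in
/-- weight of one part -/
noncomputable def Xt (x : V → ℝ) (g : V → Option (Fin r)) (t : Fin r) : ℝ :=
  ∑ j, if g j = some t then x j else 0

theorem defect (G : SimpleGraph V) (x : V → ℝ) {l M : ℝ} (g : V → Option (Fin r))
    (h0 : ∀ i, 0 ≤ x i) (hM : ∀ i, x i ≤ M) (eig : ∀ i, ∑ j, adj G i j * x j = l * x i)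
    (hI : Indep G g) {i : V} {t : Fin r} (hi : g i = some t) :
    |l * x i - (XX x g - Xt x g t)| ≤ M * dg G g i := by
  classical
  have e : l * x i - (XX x g - Xt x g t) = ∑ j, (adj G i j * x j -
      ((if g j = none then 0 else x j) - if g j = some t then x j else 0)) := by
    rw [← eig i]
    unfold XX Xt
    rw [Finset.sum_sub_distrib, Finset.sum_sub_distrib]
  rw [e, dg, Finset.mul_sum]
  refine (Finset.abs_sum_le_sum_abs _ _).trans (Finset.sum_le_sum fun j _ => ?_)
  have hM0 : 0 ≤ M := (h0 i).trans (hM i)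
  unfold adj
  rcases hj : g j with _ | u
  · by_cases ha : G.Adj i j
    · have hd : Dp G g i j := Or.inl ⟨hj, ha⟩
      rw [if_pos ha, if_pos rfl, if_pos hd, if_neg (by simp)]
      rw [one_mul, sub_self, sub_zero, mul_one, abs_of_nonneg (h0 j)]
      exact hM j
    · rw [if_neg ha, if_pos rfl, if_neg (by simp), zero_mul, sub_self, sub_zero, abs_zero]
      split_ifs <;> simp [hM0]
  · by_cases hu : u = t
    · subst hu
      have ha : ¬ G.Adj i j := hI i j (by rw [hi]; simp) (by rw [hi, hj])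
      rw [if_neg ha, if_neg (by simp), if_pos rfl, zero_mul, sub_self, sub_zero, abs_zero]
      split_ifs <;> simp [hM0]
    · by_cases ha : G.Adj i j
      · rw [if_pos ha, if_neg (by simp), if_neg (by simpa using hu), one_mul, sub_zero, sub_self,
          abs_zero]
        split_ifs <;> simp [hM0]
      · have hd : Dp G g i j := Or.inr ⟨by rw [hj]; simp, by rw [hi, hj]; simpa using hu, ha⟩
        rw [if_neg ha, if_neg (by simp), if_neg (by simpa using hu), if_pos hd, zero_mul, sub_zero,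
          zero_sub, abs_neg, abs_of_nonneg (h0 j), mul_one]
        exact hM j

theorem sum_dg (G : SimpleGraph V) (g : V → Option (Fin r)) {N : ℕ}
    (hN : (missSet G g).ncard + (outSet G g).ncard ≤ N) (t : Fin r) :
    (∑ i, open Classical in if g i = some t then dg G g i else 0) ≤ N := by
  classical
  set D : Finset (V × V) := Finset.univ.filter fun p => g p.1 = some t ∧ Dp G g p.1 p.2 with hD
  have h1 : (∑ i, if g i = some t then dg G g i else 0) = (D.card : ℝ) := by
    rw [Finset.card_eq_sum_ones, Nat.cast_sum, hD, Finset.sum_filter, Fintype.sum_prod_type]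
    refine Finset.sum_congr rfl fun i _ => ?_
    by_cases hi : g i = some t
    · rw [if_pos hi, dg]
      refine Finset.sum_congr rfl fun j _ => ?_
      simp only [hi, true_and]
      split_ifs <;> simp
    · rw [if_neg hi]
      symm
      refine Finset.sum_eq_zero fun j _ => ?_
      rw [if_neg]
      rintro ⟨h, -⟩
      exact hi h
  rw [h1]
  have hinj : Set.InjOn (fun p : V × V => s(p.1, p.2)) (D : Set (V × V)) := by
    rintro ⟨i, j⟩ hp ⟨i', j'⟩ hp' he
    rw [hD, Finset.mem_coe, Finset.mem_filter] at hp hp'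
    simp only [Finset.mem_univ, true_and] at hp hp'
    simp only [Sym2.eq_iff] at he
    rcases he with ⟨rfl, rfl⟩ | ⟨rfl, rfl⟩
    · rfl
    · exfalso
      obtain ⟨hi, -⟩ := hp
      obtain ⟨hj, hd⟩ := hp'
      rcases hd with ⟨h, -⟩ | ⟨-, h, -⟩
      · rw [hi] at h
        exact absurd h (by simp)
      · exact h (by rw [hi, hj])
  have hsub : (fun p : V × V => s(p.1, p.2)) '' (D : Set (V × V)) ⊆ missSet G g ∪ outSet G g := by
    rintro _ ⟨⟨i, j⟩, hp, rfl⟩
    rw [hD, Finset.mem_coe, Finset.mem_filter] at hp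
    simp only [Finset.mem_univ, true_and] at hp
    obtain ⟨hi, hd⟩ := hp
    rcases hd with ⟨h, ha⟩ | ⟨h, h', ha⟩
    · right
      exact ⟨ha, j, by simp, h⟩
    · left
      exact ⟨i, j, rfl, by rw [hi]; simp, h, fun he => h' he.symm, ha⟩
  have h2 : D.card ≤ N := by
    calc D.card = ((fun p : V × V => s(p.1, p.2)) '' (D : Set (V × V))).ncard := by
          rw [hinj.ncard_image, Set.ncard_coe_finset]
      _ ≤ (missSet G g ∪ outSet G g).ncard := Set.ncard_le_ncard hsub (Set.toFinite _)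
      _ ≤ (missSet G g).ncard + (outSet G g).ncard := Set.ncard_union_le _ _
      _ ≤ N := hN
  exact_mod_cast h2

theorem dg_nonneg (G : SimpleGraph V) (g : V → Option (Fin r)) (i : V) : 0 ≤ dg G g i := by
  classical
  unfold dg
  refine Finset.sum_nonneg fun j _ => ?_
  split_ifs <;> norm_num

theorem dg_le (G : SimpleGraph V) (g : V → Option (Fin r)) {N : ℕ}
    (hN : (missSet G g).ncard + (outSet G g).ncard ≤ N) {i : V} {t : Fin r} (hi : g i = some t) :
    dg G g i ≤ N := by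
  classical
  refine le_trans ?_ (sum_dg G g hN t)
  have h := Finset.single_le_sum (f := fun i => if g i = some t then dg G g i else 0)
    (fun j _ => by
      split_ifs
      · exact dg_nonneg G g j
      · exact le_rfl) (Finset.mem_univ i)
  simpa [hi] using h

theorem l_sq_le (G : SimpleGraph V) (x : V → ℝ) {l : ℝ} {m : ℕ} (hD : Data G x l m) :
    l ^ 2 ≤ 2 * m := by
  classical
  have h1 : ∑ p : V × V, adj G p.1 p.2 * (x p.1 * x p.2) = l := by
    rw [Fintype.sum_prod_type]
    calc ∑ i, ∑ j, adj G i j * (x i * x j) = ∑ i, x i * ∑ j, adj G i j * x j := by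
          refine Finset.sum_congr rfl fun i _ => ?_
          rw [Finset.mul_sum]
          refine Finset.sum_congr rfl fun j _ => ?_
          ring
      _ = ∑ i, l * x i ^ 2 := by
          refine Finset.sum_congr rfl fun i _ => ?_
          rw [hD.eig i]
          ring
      _ = l := by rw [← Finset.mul_sum, hD.unit, mul_one]
  have h2 : ∑ p : V × V, adj G p.1 p.2 ^ 2 = 2 * m := by
    rw [Fintype.sum_prod_type, ← hD.edges]
    refine Finset.sum_congr rfl fun i _ => Finset.sum_congr rfl fun j _ => ?_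
    unfold adj
    split_ifs <;> norm_num
  have h3 : ∑ p : V × V, (x p.1 * x p.2) ^ 2 = 1 := by
    rw [Fintype.sum_prod_type]
    calc ∑ i, ∑ j, (x i * x j) ^ 2 = ∑ i, x i ^ 2 * ∑ j, x j ^ 2 := by
          refine Finset.sum_congr rfl fun i _ => ?_
          rw [Finset.mul_sum]
          refine Finset.sum_congr rfl fun j _ => ?_
          ring
      _ = 1 := by rw [hD.unit]; simp [hD.unit]
  have h4 := Finset.sum_mul_sq_le_sq_mul_sq Finset.univ (fun p : V × V => adj G p.1 p.2)
    (fun p : V × V => x p.1 * x p.2)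
  rw [h1, h2, h3, mul_one] at h4
  exact h4

/-- The estimate for one part: `n` the size, `c` the weight of the squares, `X` the total. -/
theorem part_est {l q N n X xt ξ c E : ℝ} (hq : 0 < q) (hN : 0 ≤ N) (hl : 1000 * (N + 1) ≤ l)
    (hn0 : 0 ≤ n) (hn : n ≤ 13 / 10 * l) (hξ0 : 0 ≤ ξ) (hξ : ξ ≤ 12 / 10 * q)
    (hX : l * ξ = X - xt) (hE : E = xt - n * ξ) (hE' : |E| ≤ 11 / 10 * N * q / l)
    (hc : |c - n * ξ ^ 2| ≤ 26 / 10 * N * q ^ 2 / l) :
    |c - X ^ 2 * (n / (l + n) ^ 2)| ≤ 7 * N * q ^ 2 / l := by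
  have hl0 : 0 < l := by linarith
  have hln : 0 < l + n := by linarith
  have h1 : (l + n) * ξ = X - E := by rw [hE]; linarith
  have hR : X / (l + n) = ξ + E / (l + n) := by
    field_simp
    linarith
  have hEl : |E / (l + n)| ≤ 11 / 10 * N * q / l ^ 2 := by
    rw [abs_div, abs_of_pos hln, div_le_iff₀ hln]
    calc |E| ≤ 11 / 10 * N * q / l := hE'
      _ = 11 / 10 * N * q / l ^ 2 * l := by field_simp
      _ ≤ 11 / 10 * N * q / l ^ 2 * (l + n) := by
        apply mul_le_mul_of_nonneg_left (by linarith)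
        positivity
  have hEl2 : 11 / 10 * N * q / l ^ 2 ≤ 1 / 10 * q := by
    rw [div_le_iff₀ (by positivity)]
    have : 11 / 10 * N ≤ 1 / 10 * l ^ 2 := by nlinarith
    nlinarith
  have hsq : X ^ 2 * (n / (l + n) ^ 2) = n * (ξ + E / (l + n)) ^ 2 := by
    rw [← hR]
    field_simp
  rw [hsq]
  set δ := E / (l + n) with hδ
  have e1 : c - n * (ξ + δ) ^ 2 = (c - n * ξ ^ 2) - n * (δ * (2 * ξ + δ)) := by ring
  rw [e1]
  have h2 : |2 * ξ + δ| ≤ 25 / 10 * q := by
    rw [abs_le]
    have := abs_le.1 (hEl.trans hEl2)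
    constructor <;> linarith [this.1, this.2]
  have h3 : |n * (δ * (2 * ξ + δ))| ≤ 13 / 10 * l * (11 / 10 * N * q / l ^ 2 * (25 / 10 * q)) := by
    rw [abs_mul, abs_mul, abs_of_nonneg hn0]
    apply mul_le_mul hn _ (by positivity) (by positivity)
    exact mul_le_mul hEl h2 (abs_nonneg _) (by positivity)
  have h4 : 13 / 10 * l * (11 / 10 * N * q / l ^ 2 * (25 / 10 * q)) = 3575 / 1000 * N * q ^ 2 / l := by
    field_simp
    ring
  have h5 : 0 ≤ N * q ^ 2 / l := by positivity
  have h6 : |c - n * ξ ^ 2 - n * (δ * (2 * ξ + δ))| ≤ |c - n * ξ ^ 2| + |n * (δ * (2 * ξ + δ))| :=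
    abs_sub _ _
  have h7 : 26 / 10 * N * q ^ 2 / l = 26 / 10 * (N * q ^ 2 / l) := by ring
  have h8 : 3575 / 1000 * N * q ^ 2 / l = 3575 / 1000 * (N * q ^ 2 / l) := by ring
  have h9 : 7 * N * q ^ 2 / l = 7 * (N * q ^ 2 / l) := by ring
  rw [h4, h8] at h3
  rw [h7] at hc
  rw [h9]
  linarith

theorem main_lower {l q ns nt X : ℝ} (hl0 : 0 < l) (hql : q ^ 2 * l ≤ 1)
    (hns : 0 ≤ ns) (hnt : 0 ≤ nt) (hsum : ns + nt ≤ 13 / 10 * l)
    (hX : 9 / 10 ≤ X * (11 / 10 * q)) :
    4 / 100 * |ns - nt| / l ≤ |X ^ 2 * (ns / (l + ns) ^ 2) - X ^ 2 * (nt / (l + nt) ^ 2)| := by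
  have hA : 0 < (l + ns) ^ 2 * (l + nt) ^ 2 := by positivity
  have hprod : ns * nt ≤ 43 / 100 * l ^ 2 := by nlinarith [sq_nonneg (ns - nt)]
  have hB : (l + ns) * (l + nt) ≤ 28 / 10 * l ^ 2 := by nlinarith [sq_nonneg (ns - nt)]
  have hB0 : 0 ≤ (l + ns) * (l + nt) := by positivity
  have hl4 : 0 < l ^ 4 := by positivity
  have hB2 : (l + ns) ^ 2 * (l + nt) ^ 2 ≤ 8 * l ^ 4 := by
    have h1 : ((l + ns) * (l + nt)) ^ 2 ≤ (28 / 10 * l ^ 2) ^ 2 := pow_le_pow_left₀ hB0 hB 2
    have h2 : ((l + ns) * (l + nt)) ^ 2 = (l + ns) ^ 2 * (l + nt) ^ 2 := by ring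
    have h3 : (28 / 10 * l ^ 2) ^ 2 = 784 / 100 * l ^ 4 := by ring
    linarith
  have hdiff : ns / (l + ns) ^ 2 - nt / (l + nt) ^ 2 =
      (ns - nt) * ((l ^ 2 - ns * nt) / ((l + ns) ^ 2 * (l + nt) ^ 2)) := by
    have h1 : (l + ns) ≠ 0 := by positivity
    have h2 : (l + nt) ≠ 0 := by positivity
    field_simp
    ring
  have hK : 57 / 800 / l ^ 2 ≤ (l ^ 2 - ns * nt) / ((l + ns) ^ 2 * (l + nt) ^ 2) := by
    rw [div_le_div_iff₀ (by positivity) hA]
    have h1 : 57 / 800 * ((l + ns) ^ 2 * (l + nt) ^ 2) ≤ 57 / 800 * (8 * l ^ 4) :=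
      mul_le_mul_of_nonneg_left hB2 (by norm_num)
    have h2 : 57 / 100 * l ^ 2 * l ^ 2 ≤ (l ^ 2 - ns * nt) * l ^ 2 :=
      mul_le_mul_of_nonneg_right (by linarith) (by positivity)
    have h3 : 57 / 800 * (8 * l ^ 4) = 57 / 100 * l ^ 2 * l ^ 2 := by ring
    linarith
  have hX2 : 66 / 100 ≤ X ^ 2 * q ^ 2 := by
    have h2 : 9 / 11 ≤ X * q := by linarith
    have h3 : (9 / 11) ^ 2 ≤ (X * q) ^ 2 := pow_le_pow_left₀ (by norm_num) h2 2
    have h4 : (X * q) ^ 2 = X ^ 2 * q ^ 2 := by ring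
    have h5 : (66 / 100 : ℝ) ≤ (9 / 11) ^ 2 := by norm_num
    linarith
  have hX3 : 66 / 100 * l ≤ X ^ 2 := by
    have h1 : 0 ≤ X ^ 2 := by positivity
    have h2 : X ^ 2 * (q ^ 2 * l) ≤ X ^ 2 * 1 := mul_le_mul_of_nonneg_left hql h1
    have h3 : 66 / 100 * l ≤ X ^ 2 * q ^ 2 * l := mul_le_mul_of_nonneg_right hX2 hl0.le
    linarith
  have e1 : X ^ 2 * (ns / (l + ns) ^ 2) - X ^ 2 * (nt / (l + nt) ^ 2) =
      (ns - nt) * (X ^ 2 * ((l ^ 2 - ns * nt) / ((l + ns) ^ 2 * (l + nt) ^ 2))) := by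
    rw [← mul_sub, hdiff]
    ring
  have h57 : 0 < 57 / 800 / l ^ 2 := by positivity
  have e2 : 66 / 100 * l * (57 / 800 / l ^ 2) ≤
      X ^ 2 * ((l ^ 2 - ns * nt) / ((l + ns) ^ 2 * (l + nt) ^ 2)) :=
    mul_le_mul hX3 hK h57.le (by positivity)
  have e3 : 66 / 100 * l * (57 / 800 / l ^ 2) = 3762 / 80000 / l := by
    field_simp
    ring
  rw [e3] at e2
  have e4 : 0 < X ^ 2 * ((l ^ 2 - ns * nt) / ((l + ns) ^ 2 * (l + nt) ^ 2)) :=
    lt_of_lt_of_le (by positivity) e2
  rw [e1, abs_mul, abs_of_pos e4]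
  have e5 : 4 / 100 * |ns - nt| / l = |ns - nt| * (4 / 100 / l) := by ring
  rw [e5]
  apply mul_le_mul_of_nonneg_left _ (abs_nonneg _)
  refine le_trans ?_ e2
  exact div_le_div_of_nonneg_right (by norm_num) hl0.le

theorem dist_lower {l q N ns nt X cs ct : ℝ} (hN : 0 ≤ N) (hl : 10000 * (N + 1) ≤ l)
    (hql : q ^ 2 * l ≤ 1) (hns : 0 ≤ ns) (hnt : 0 ≤ nt) (hsum : ns + nt ≤ 13 / 10 * l)
    (hX : 9 / 10 ≤ X * (11 / 10 * q))
    (hs : |cs - X ^ 2 * (ns / (l + ns) ^ 2)| ≤ 7 * N * q ^ 2 / l)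
    (ht : |ct - X ^ 2 * (nt / (l + nt) ^ 2)| ≤ 7 * N * q ^ 2 / l)
    (h : 1 ≤ |ns - nt|) : 3 / 100 * |ns - nt| / l ≤ |cs - ct| := by
  have hl0 : 0 < l := by linarith
  have hmain := main_lower hl0 hql hns hnt hsum hX
  have herr : 7 * N * q ^ 2 / l ≤ 1 / 1000 * |ns - nt| / l := by
    apply div_le_div_of_nonneg_right _ hl0.le
    have h2 : 7000 * N ≤ l := by linarith
    have h3 : 0 ≤ q ^ 2 := by positivity
    have h4 : 7000 * N * q ^ 2 ≤ l * q ^ 2 := mul_le_mul_of_nonneg_right h2 h3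
    linarith
  have e1 : X ^ 2 * (ns / (l + ns) ^ 2) - X ^ 2 * (nt / (l + nt) ^ 2) =
      (cs - ct) - (cs - X ^ 2 * (ns / (l + ns) ^ 2)) + (ct - X ^ 2 * (nt / (l + nt) ^ 2)) := by
    ring
  have e2 : |X ^ 2 * (ns / (l + ns) ^ 2) - X ^ 2 * (nt / (l + nt) ^ 2)| ≤
      |cs - ct| + |cs - X ^ 2 * (ns / (l + ns) ^ 2)| + |ct - X ^ 2 * (nt / (l + nt) ^ 2)| := by
    rw [e1]
    have k1 := abs_add_le ((cs - ct) - (cs - X ^ 2 * (ns / (l + ns) ^ 2)))
      (ct - X ^ 2 * (nt / (l + nt) ^ 2))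
    have k2 := abs_sub (cs - ct) (cs - X ^ 2 * (ns / (l + ns) ^ 2))
    linarith
  have e3 : 0 ≤ |ns - nt| / l := by positivity
  have e4 : 4 / 100 * |ns - nt| / l = 4 / 100 * (|ns - nt| / l) := by ring
  have e5 : 1 / 1000 * |ns - nt| / l = 1 / 1000 * (|ns - nt| / l) := by ring
  have e6 : 3 / 100 * |ns - nt| / l = 3 / 100 * (|ns - nt| / l) := by ring
  rw [e4] at hmain
  rw [e5] at herr
  rw [e6]
  linarith

/-- The final computation. -/
theorem final {l q N ns nt X cs ct m : ℝ} (hN : 0 ≤ N) (hl : 10000 * (N + 1) ≤ l)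
    (hns : 0 ≤ ns) (hnt : 0 ≤ nt) (hsum : ns + nt ≤ 13 / 10 * l)
    (hX : 9 / 10 ≤ X * (11 / 10 * q)) (hm : 0 < m) (hlm : l ^ 2 ≤ 2 * m)
    (hq2 : q ^ 2 = l / (2 * m))
    (hs : |cs - X ^ 2 * (ns / (l + ns) ^ 2)| ≤ 7 * N * q ^ 2 / l)
    (ht : |ct - X ^ 2 * (nt / (l + nt) ^ 2)| ≤ 7 * N * q ^ 2 / l)
    (hne : ns = nt ∨ 1 ≤ |ns - nt|) :
    (ns - nt) ^ 2 / 10 ^ 6 ≤ m * (cs - ct) ^ 2 := by
  rcases hne with h | h
  · rw [h, sub_self]
    have : 0 ≤ m * (cs - ct) ^ 2 := by positivity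
    simpa using this
  have hl0 : 0 < l := by linarith
  have hql : q ^ 2 * l ≤ 1 := by
    rw [hq2, div_mul_eq_mul_div, div_le_one (by positivity)]
    have : l * l = l ^ 2 := by ring
    linarith
  have hdist := dist_lower hN hl hql hns hnt hsum hX hs ht h
  have h0 : 0 ≤ 3 / 100 * |ns - nt| / l := by positivity
  have hsq : (3 / 100 * |ns - nt| / l) ^ 2 ≤ (cs - ct) ^ 2 := by
    rw [← sq_abs (cs - ct)]
    exact pow_le_pow_left₀ h0 hdist 2
  have e7 : (3 / 100 * |ns - nt| / l) ^ 2 = 9 / 10000 * (ns - nt) ^ 2 / l ^ 2 := by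
    rw [div_pow, mul_pow, sq_abs]
    norm_num
  rw [e7] at hsq
  have h8 : m * (9 / 10000 * (ns - nt) ^ 2 / l ^ 2) ≤ m * (cs - ct) ^ 2 :=
    mul_le_mul_of_nonneg_left hsq hm.le
  refine le_trans ?_ h8
  have h9 : 1 / 2 ≤ m / l ^ 2 := by
    rw [div_le_div_iff₀ (by norm_num) (by positivity)]
    linarith
  have e8 : m * (9 / 10000 * (ns - nt) ^ 2 / l ^ 2) = 9 / 10000 * (ns - nt) ^ 2 * (m / l ^ 2) := by
    ring
  rw [e8]
  have h10 : 9 / 10000 * (ns - nt) ^ 2 * (1 / 2) ≤ 9 / 10000 * (ns - nt) ^ 2 * (m / l ^ 2) :=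
    mul_le_mul_of_nonneg_left h9 (by positivity)
  have h11 : 0 ≤ (ns - nt) ^ 2 := sq_nonneg _
  linarith

/-- The estimates for one part of a graph. -/
theorem part (G : SimpleGraph V) (x : V → ℝ) {l q : ℝ} (g : V → Option (Fin r)) {N : ℕ}
    (hq : 0 < q) (hl : 10000 * ((N : ℝ) + 1) ≤ l)
    (h0 : ∀ i, 0 ≤ x i) (hhi : ∀ i, x i ≤ 11 / 10 * q)
    (eig : ∀ i, ∑ j, adj G i j * x j = l * x i)
    (hI : Indep G g) (hN : (missSet G g).ncard + (outSet G g).ncard ≤ N) (t : Fin r)
    (ht : ∃ i, g i = some t) (hn : ({i | g i = some t}.ncard : ℝ) ≤ 13 / 10 * l) :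
    |cw (fun i => x i ^ 2) g (some t) - (XX x g) ^ 2 *
      (({i | g i = some t}.ncard : ℝ) / (l + ({i | g i = some t}.ncard : ℝ)) ^ 2)| ≤
      7 * N * q ^ 2 / l := by
  classical
  have hl0 : 0 < l := by
    have : (0 : ℝ) ≤ N := Nat.cast_nonneg N
    linarith
  have hN0 : (0 : ℝ) ≤ N := Nat.cast_nonneg N
  set ξ : ℝ := (XX x g - Xt x g t) / l with hξ
  set n : ℝ := ({i | g i = some t}.ncard : ℝ) with hn'
  have hn0 : 0 ≤ n := Nat.cast_nonneg _
  have hnsum : n = ∑ i, if g i = some t then (1 : ℝ) else 0 := by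
    rw [hn', Set.ncard_eq_toFinset_card', Set.toFinset_ofPred, Finset.sum_boole]
  have hdef : ∀ i, g i = some t → |x i - ξ| ≤ 11 / 10 * q / l * dg G g i := by
    intro i hi
    have h1 := defect G x g h0 hhi eig hI hi
    have e1 : x i - ξ = (l * x i - (XX x g - Xt x g t)) / l := by
      rw [hξ]
      field_simp
    rw [e1, abs_div, abs_of_pos hl0, div_le_iff₀ hl0]
    calc _ ≤ 11 / 10 * q * dg G g i := h1
      _ = 11 / 10 * q / l * dg G g i * l := by field_simp
  have hsum : ∑ i, (if g i = some t then |x i - ξ| else 0) ≤ 11 / 10 * N * q / l := by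
    calc ∑ i, (if g i = some t then |x i - ξ| else 0)
        ≤ ∑ i, 11 / 10 * q / l * (if g i = some t then dg G g i else 0) := by
          refine Finset.sum_le_sum fun i _ => ?_
          split_ifs with hi
          · exact hdef i hi
          · simp
      _ = 11 / 10 * q / l * ∑ i, (if g i = some t then dg G g i else 0) := by
          rw [Finset.mul_sum]
      _ ≤ 11 / 10 * q / l * N := by
          apply mul_le_mul_of_nonneg_left (sum_dg G g hN t)
          positivity
      _ = 11 / 10 * N * q / l := by ring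
  have hdgl : ∀ i, g i = some t → |x i - ξ| ≤ 1 / 10 * q := by
    intro i hi
    refine (hdef i hi).trans ?_
    have h1 := dg_le G g hN hi
    have h2 : 11 / 10 * q / l * dg G g i ≤ 11 / 10 * q / l * N :=
      mul_le_mul_of_nonneg_left h1 (by positivity)
    refine h2.trans ?_
    rw [div_mul_eq_mul_div, div_le_iff₀ hl0]
    have h3 : 11 * (N : ℝ) ≤ l := by linarith
    have h4 : q * (11 * (N : ℝ)) ≤ q * l := mul_le_mul_of_nonneg_left h3 hq.le
    linarith
  obtain ⟨i₀, hi₀⟩ := ht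
  have hξ1 : ξ ≤ 12 / 10 * q := by
    have h1 := abs_le.1 (hdgl i₀ hi₀)
    have h2 := hhi i₀
    linarith [h1.1]
  have hξ0 : 0 ≤ ξ := by
    rw [hξ]
    apply div_nonneg _ hl0.le
    unfold XX Xt
    rw [← Finset.sum_sub_distrib]
    refine Finset.sum_nonneg fun j _ => ?_
    rcases hj : g j with _ | u
    · simp
    · by_cases hu : u = t
      · subst hu
        simp
      · have := h0 j
        rw [if_neg (by simp), if_neg (by simpa using hu)]
        linarith
  refine part_est (xt := Xt x g t) (E := Xt x g t - n * ξ) (ξ := ξ) hq hN0 (by linarith) hn0 hn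
    hξ0 hξ1 ?_ rfl ?_ ?_
  · rw [hξ]
    field_simp
  · have e1 : Xt x g t - n * ξ = ∑ i, if g i = some t then x i - ξ else 0 := by
      rw [hnsum, Finset.sum_mul, Xt, ← Finset.sum_sub_distrib]
      refine Finset.sum_congr rfl fun i _ => ?_
      split_ifs <;> ring
    rw [e1]
    refine (Finset.abs_sum_le_sum_abs _ _).trans (le_trans (le_of_eq ?_) hsum)
    refine Finset.sum_congr rfl fun i _ => ?_
    split_ifs
    · rfl
    · simp
  · have e1 : cw (fun i => x i ^ 2) g (some t) - n * ξ ^ 2 =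
        ∑ i, if g i = some t then (x i - ξ) * (x i + ξ) else 0 := by
      rw [hnsum, Finset.sum_mul, cw, ← Finset.sum_sub_distrib]
      refine Finset.sum_congr rfl fun i _ => ?_
      split_ifs <;> ring
    rw [e1]
    refine (Finset.abs_sum_le_sum_abs _ _).trans ?_
    calc ∑ i, |if g i = some t then (x i - ξ) * (x i + ξ) else 0|
        ≤ ∑ i, 23 / 10 * q * (if g i = some t then |x i - ξ| else 0) := by
          refine Finset.sum_le_sum fun i _ => ?_
          split_ifs with hi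
          · rw [abs_mul, mul_comm]
            apply mul_le_mul_of_nonneg_right _ (abs_nonneg _)
            have h1 := h0 i
            have h2 := hhi i
            rw [abs_of_nonneg (by linarith)]
            linarith
          · simp
      _ = 23 / 10 * q * ∑ i, (if g i = some t then |x i - ξ| else 0) := by
          rw [Finset.mul_sum]
      _ ≤ 23 / 10 * q * (11 / 10 * N * q / l) := by
          apply mul_le_mul_of_nonneg_left hsum
          positivity
      _ = 253 / 100 * (N * q ^ 2 / l) := by ring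
      _ ≤ 26 / 10 * (N * q ^ 2 / l) := by
          apply mul_le_mul_of_nonneg_right (by norm_num)
          positivity
      _ = 26 / 10 * N * q ^ 2 / l := by ring

end BAL

open BAL in
theorem prfBAL : BAL_statement := by
  intro N
  refine ⟨(10000 * (N + 1)) ^ 2, ?_⟩
  intro r V _ G x l m g hr hD hm hml hI hlo hhi hnone hne hN s t
  classical
  have hl2 := l_sq_le G x hD
  have hm0 : (0 : ℝ) < m := by exact_mod_cast hD.pos
  have hN0 : (0 : ℝ) ≤ N := Nat.cast_nonneg N
  have hlbig : 10000 * ((N : ℝ) + 1) ≤ l := by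
    have h1 : (10000 * ((N : ℝ) + 1)) ^ 2 ≤ l ^ 2 := by
      refine le_trans ?_ hml
      exact_mod_cast hm
    exact (sq_le_sq₀ (by positivity) hD.l_nonneg).1 h1
  have hl0 : 0 < l := by linarith
  set q : ℝ := Real.sqrt (l / (2 * m)) with hq
  have hq0 : 0 < q := Real.sqrt_pos.2 (by positivity)
  have hq2 : q ^ 2 = l / (2 * m) := Real.sq_sqrt (by positivity)
  set n : Fin r → ℝ := fun t => ({i | g i = some t}.ncard : ℝ) with hn
  have hn0 : ∀ t, 0 ≤ n t := fun t => Nat.cast_nonneg _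
  have hnsum : ∀ t, n t = ∑ i, if g i = some t then (1 : ℝ) else 0 := by
    intro t
    show ({i | g i = some t}.ncard : ℝ) = _
    rw [Set.ncard_eq_toFinset_card', Set.toFinset_ofPred, Finset.sum_boole]
  -- the sum of the sizes of two parts
  have hsum : ∀ s t : Fin r, s ≠ t → n s + n t ≤ 13 / 10 * l := by
    intro s t hst
    obtain ⟨u, hus, hut⟩ : ∃ u : Fin r, u ≠ s ∧ u ≠ t := by
      have h1 : ({s, t} : Finset (Fin r)).card < Fintype.card (Fin r) := by
        refine lt_of_le_of_lt (Finset.card_le_two) ?_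
        rw [Fintype.card_fin]
        omega
      obtain ⟨u, hu⟩ : ∃ u, u ∉ ({s, t} : Finset (Fin r)) := by
        by_contra hcon
        push Not at hcon
        have h2 : ({s, t} : Finset (Fin r)) = Finset.univ := Finset.eq_univ_iff_forall.2 hcon
        rw [h2, Finset.card_univ] at h1
        exact lt_irrefl _ h1
      simp only [Finset.mem_insert, Finset.mem_singleton, not_or] at hu
      exact ⟨u, hu.1, hu.2⟩
    obtain ⟨i, hi⟩ := hne u
    have h1 := abs_le.1 (defect G x g hD.nonneg hhi hD.eig hI hi)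
    have h2 := dg_le G g hN hi
    have h3 : 11 / 10 * q * dg G g i ≤ 11 / 10 * q * N :=
      mul_le_mul_of_nonneg_left h2 (by positivity)
    have h4 : l * x i ≤ l * (11 / 10 * q) := mul_le_mul_of_nonneg_left (hhi i) hl0.le
    have h5 : 9 / 10 * q * (n s + n t) ≤ XX x g - Xt x g u := by
      rw [hnsum, hnsum, mul_add, Finset.mul_sum, Finset.mul_sum, ← Finset.sum_add_distrib, XX, Xt,
        ← Finset.sum_sub_distrib]
      refine Finset.sum_le_sum fun j _ => ?_
      rcases hj : g j with _ | v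
      · simp
      · have hjx := hlo j (by rw [hj]; simp)
        have hjx0 := hD.nonneg j
        by_cases hv : v = s
        · subst hv
          have e1 : (some v = some t) = False := by simpa using hst
          have e2 : (some v = some u) = False := by simpa using Ne.symm hus
          simp only [e1, e2, if_true, if_false]
          rw [if_neg (by simp)]
          linarith
        · by_cases hv' : v = t
          · subst hv'
            have e1 : (some v = some s) = False := by simpa using hv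
            have e2 : (some v = some u) = False := by simpa using Ne.symm hut
            simp only [e1, e2, if_true, if_false]
            rw [if_neg (by simp)]
            linarith
          · have e1 : (some v = some s) = False := by simpa using hv
            have e2 : (some v = some t) = False := by simpa using hv'
            simp only [e1, e2, if_false]
            rw [if_neg (by simp)]
            split_ifs <;> linarith
    have h6 : 9 / 10 * (n s + n t) * q ≤ 11 / 10 * (l + N) * q := by linarith [h1.1]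
    have h7 : 9 / 10 * (n s + n t) ≤ 11 / 10 * (l + N) := le_of_mul_le_mul_right h6 hq0
    linarith
  have hn1 : ∀ t : Fin r, n t ≤ 13 / 10 * l := by
    intro t
    obtain ⟨u, hu⟩ : ∃ u : Fin r, u ≠ t := by
      by_cases h : t.1 = 0
      · exact ⟨⟨1, by omega⟩, fun he => by rw [← he] at h; simp at h⟩
      · exact ⟨⟨0, by omega⟩, fun he => by rw [← he] at h; simp at h⟩
    have h1 := hsum t u (Ne.symm hu)
    have h2 := hn0 u
    linarith
  by_cases hst : s = t
  · subst hst
    simp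
  have hX : 9 / 10 ≤ XX x g * (11 / 10 * q) := by
    have h1 : 1 - cw (fun i => x i ^ 2) g none = ∑ j, if g j = none then 0 else x j ^ 2 := by
      rw [← hD.unit, cw, ← Finset.sum_sub_distrib]
      refine Finset.sum_congr rfl fun j _ => ?_
      split_ifs <;> ring
    have h2 : (∑ j, if g j = none then 0 else x j ^ 2) ≤ XX x g * (11 / 10 * q) := by
      rw [XX, Finset.sum_mul]
      refine Finset.sum_le_sum fun j _ => ?_
      split_ifs
      · simp
      · rw [sq]
        exact mul_le_mul_of_nonneg_left (hhi j) (hD.nonneg j)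
    linarith
  have hps := part G x g hq0 hlbig hD.nonneg hhi hD.eig hI hN s (hne s) (hn1 s)
  have hpt := part G x g hq0 hlbig hD.nonneg hhi hD.eig hI hN t (hne t) (hn1 t)
  refine final hN0 hlbig (hn0 s) (hn0 t) (hsum s t hst) hX hm0 hl2 hq2 hps hpt ?_
  rcases lt_trichotomy ({i | g i = some s}.ncard) ({i | g i = some t}.ncard) with h | h | h
  · right
    have h1 : ((({i | g i = some s}.ncard : ℕ) : ℝ)) + 1 ≤ ({i | g i = some t}.ncard : ℕ) := by
      exact_mod_cast h
    show 1 ≤ |(({i | g i = some s}.ncard : ℕ) : ℝ) - (({i | g i = some t}.ncard : ℕ) : ℝ)|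
    rw [abs_sub_comm, abs_of_nonneg (by linarith)]
    linarith
  · left
    show (({i | g i = some s}.ncard : ℕ) : ℝ) = (({i | g i = some t}.ncard : ℕ) : ℝ)
    rw [h]
  · right
    have h1 : ((({i | g i = some t}.ncard : ℕ) : ℝ)) + 1 ≤ ({i | g i = some s}.ncard : ℕ) := by
      exact_mod_cast h
    show 1 ≤ |(({i | g i = some s}.ncard : ℕ) : ℝ) - (({i | g i = some t}.ncard : ℕ) : ℝ)|
    rw [abs_of_nonneg (by linarith)]
    linarith

end MP0c3a8f
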