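import Pool.Agent.Work.MP_0c3a8f_co.Stmts

/-!
# MP_0c3a8f_co, item KEY: the main inequality
-/

open Finset

namespace MP0c3a8f

namespace KEY

open Classical in
/-- the weight of `i` if it is in the part `t` -/
noncomputable def vv {V : Type} {r : ℕ} (y : V → ℝ) (f : V → Option (Fin r)) (t : Fin r) (i : V) :
    ℝ := if f i = some t then y i else 0

open Classical in
/-- the weight of `i` if it is in no part -/
noncomputable def v0 {V : Type} {r : ℕ} (y : V → ℝ) (f : V → Option (Fin r)) (i : V) : ℝ :=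
  if f i = none then y i else 0

theorem split {V : Type} {r : ℕ} (y : V → ℝ) (f : V → Option (Fin r)) (i : V) :
    y i = v0 y f i + ∑ t, vv y f t i := by
  unfold v0 vv
  rcases h : f i with _ | s
  · simp
  · simp

theorem sum_cw {V : Type} [Fintype V] {r : ℕ} (y : V → ℝ) (f : V → Option (Fin r)) :
    ∑ i, y i = cw y f none + ∑ t, cw y f (some t) := by
  have h1 : cw y f none = ∑ i, v0 y f i := rfl
  have h2 : ∀ t, cw y f (some t) = ∑ i, vv y f t i := fun t => rfl
  rw [h1]
  simp only [h2]
  rw [Finset.sum_comm, ← Finset.sum_add_distrib]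
  exact Finset.sum_congr rfl fun i _ => split y f i

open Classical in
theorem pair_eq {V : Type} {r : ℕ} (y : V → ℝ) (f : V → Option (Fin r)) (i j : V) :
    (if f i ≠ none ∧ f j ≠ none ∧ f i ≠ f j then y i * y j else 0) =
      (∑ t, vv y f t i) * (∑ t, vv y f t j) - ∑ t, vv y f t i * vv y f t j := by
  unfold vv
  rcases hi : f i with _ | s
  · simp
  · rcases hj : f j with _ | t
    · simp
    · by_cases hst : s = t
      · subst hst
        simp
      · have : ∀ x : Fin r, (if some s = some x then y i else 0) * (if some t = some x then y j else 0)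
            = 0 := by
          intro x
          by_cases h1 : s = x
          · subst h1
            rw [if_neg (show ¬ some t = some s from fun h => hst (Option.some.inj h).symm), mul_zero]
          · rw [if_neg (show ¬ some s = some x from fun h => h1 (Option.some.inj h)), zero_mul]
        simp only [this]
        simp [hst]

open Classical in
theorem pair_sum {V : Type} [Fintype V] {r : ℕ} (y : V → ℝ) (f : V → Option (Fin r)) :
    ∑ i, ∑ j, (if f i ≠ none ∧ f j ≠ none ∧ f i ≠ f j then y i * y j else 0) =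
      (∑ t, cw y f (some t)) ^ 2 - ∑ t, cw y f (some t) ^ 2 := by
  have h2 : ∀ t, cw y f (some t) = ∑ i, vv y f t i := fun t => rfl
  simp only [pair_eq, h2, Finset.sum_sub_distrib]
  congr 1
  · rw [sq, Finset.sum_comm (s := (Finset.univ : Finset (Fin r))), Finset.sum_mul_sum]
  · have : ∀ t, (∑ i, vv y f t i) ^ 2 = ∑ i, ∑ j, vv y f t i * vv y f t j := by
      intro t
      rw [sq, Finset.sum_mul_sum]
    simp only [this]
    rw [Finset.sum_comm (s := (Finset.univ : Finset (Fin r)))]
    refine Finset.sum_congr rfl fun i _ => ?_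
    rw [Finset.sum_comm]

open Classical in
theorem qf_le {V : Type} [Fintype V] {r : ℕ} (G : SimpleGraph V) (y : V → ℝ)
    (f : V → Option (Fin r)) (hy : ∀ i, 0 ≤ y i) (hf : Indep G f) :
    qf G y ≤ 2 * ∑ w, v0 y f w * nb G y w +
      ((∑ t, cw y f (some t)) ^ 2 - ∑ t, cw y f (some t) ^ 2) - miss G y f := by
  have hpt : ∀ i j, adj G i j * (y i * y j) ≤
      v0 y f i * (adj G i j * y j) + v0 y f j * (adj G j i * y i) +
      (if f i ≠ none ∧ f j ≠ none ∧ f i ≠ f j then y i * y j else 0) -
      (if f i ≠ none ∧ f j ≠ none ∧ f i ≠ f j ∧ ¬ G.Adj i j then y i * y j else 0) := by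
    intro i j
    have hyy : 0 ≤ y i * y j := mul_nonneg (hy i) (hy j)
    have ha0 : 0 ≤ adj G i j := by unfold adj; split_ifs <;> norm_num
    have has : adj G j i = adj G i j := by
      unfold adj
      simp only [G.adj_comm]
    have h0 : 0 ≤ adj G i j * (y i * y j) := mul_nonneg ha0 hyy
    unfold v0
    rw [has]
    by_cases hi : f i = none
    · have e1 : ¬ (f i ≠ none ∧ f j ≠ none ∧ f i ≠ f j) := fun h => h.1 hi
      have e2 : ¬ (f i ≠ none ∧ f j ≠ none ∧ f i ≠ f j ∧ ¬ G.Adj i j) := fun h => h.1 hi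
      rw [if_pos hi, if_neg e1, if_neg e2]
      split_ifs
      · nlinarith
      · nlinarith
    · by_cases hj : f j = none
      · have e1 : ¬ (f i ≠ none ∧ f j ≠ none ∧ f i ≠ f j) := fun h => h.2.1 hj
        have e2 : ¬ (f i ≠ none ∧ f j ≠ none ∧ f i ≠ f j ∧ ¬ G.Adj i j) := fun h => h.2.1 hj
        rw [if_neg hi, if_pos hj, if_neg e1, if_neg e2]
        nlinarith
      · rw [if_neg hi, if_neg hj]
        by_cases hij : f i = f j
        · have e1 : ¬ (f i ≠ none ∧ f j ≠ none ∧ f i ≠ f j) := fun h => h.2.2 hij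
          have e2 : ¬ (f i ≠ none ∧ f j ≠ none ∧ f i ≠ f j ∧ ¬ G.Adj i j) := fun h => h.2.2.1 hij
          rw [if_neg e1, if_neg e2]
          have : adj G i j = 0 := by
            unfold adj
            rw [if_neg (hf i j hi hij)]
          rw [this]
          simp
        · rw [if_pos ⟨hi, hj, hij⟩]
          by_cases hadj : G.Adj i j
          · have e2 : ¬ (f i ≠ none ∧ f j ≠ none ∧ f i ≠ f j ∧ ¬ G.Adj i j) :=
              fun h => h.2.2.2 hadj
            rw [if_neg e2]
            unfold adj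
            rw [if_pos hadj]
            simp
          · rw [if_pos ⟨hi, hj, hij, hadj⟩]
            unfold adj
            rw [if_neg hadj]
            simp
  have h1 : qf G y ≤ ∑ i, ∑ j, (v0 y f i * (adj G i j * y j) + v0 y f j * (adj G j i * y i) +
      (if f i ≠ none ∧ f j ≠ none ∧ f i ≠ f j then y i * y j else 0) -
      (if f i ≠ none ∧ f j ≠ none ∧ f i ≠ f j ∧ ¬ G.Adj i j then y i * y j else 0)) :=
    Finset.sum_le_sum fun i _ => Finset.sum_le_sum fun j _ => hpt i j
  simp only [Finset.sum_sub_distrib, Finset.sum_add_distrib] at h1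
  rw [pair_sum] at h1
  have h2 : ∑ i, ∑ j, v0 y f i * (adj G i j * y j) = ∑ w, v0 y f w * nb G y w := by
    refine Finset.sum_congr rfl fun i _ => ?_
    unfold nb
    rw [Finset.mul_sum]
  have h3 : ∑ i, ∑ j, v0 y f j * (adj G j i * y i) = ∑ w, v0 y f w * nb G y w := by
    rw [Finset.sum_comm]
    exact h2
  rw [h2, h3] at h1
  have h4 : ∑ i, ∑ j, (if f i ≠ none ∧ f j ≠ none ∧ f i ≠ f j ∧ ¬ G.Adj i j
      then y i * y j else 0) = miss G y f := rfl
  rw [h4] at h1
  linarith

theorem vE_eq {V : Type} [Fintype V] (G : SimpleGraph V) (x : V → ℝ) (l : ℝ) (m : ℕ)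
    (hD : Data G x l m) : 2 * m * vE G x (l / (2 * m)) = 2 * m * qf G (fun i => x i ^ 2) - l ^ 2 := by
  have hm : (0 : ℝ) < m := by exact_mod_cast hD.pos
  have h1 : ∑ i, ∑ j, adj G i j * (x i * x j) = l := by
    have : ∀ i, ∑ j, adj G i j * (x i * x j) = l * x i ^ 2 := by
      intro i
      have h2 : ∀ j, adj G i j * (x i * x j) = x i * (adj G i j * x j) := fun j => by ring
      simp only [h2]
      rw [← Finset.mul_sum, hD.eig i]
      ring
    simp only [this]
    rw [← Finset.mul_sum, hD.unit, mul_one]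
  have h2 : ∀ c : ℝ, vE G x c = qf G (fun i => x i ^ 2) - 2 * c * l + c ^ 2 * (2 * m) := by
    intro c
    unfold vE qf
    have h3 : ∀ i j, adj G i j * (x i * x j - c) ^ 2 = adj G i j * (x i ^ 2 * x j ^ 2) -
        2 * c * (adj G i j * (x i * x j)) + c ^ 2 * adj G i j := fun i j => by ring
    simp only [h3, Finset.sum_add_distrib, Finset.sum_sub_distrib]
    simp only [← Finset.mul_sum]
    rw [h1, hD.edges]
  rw [h2]
  field_simp
  ring

end KEY

open KEY in
theorem prfKEY : KEY_statement := by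
  classical
  intro r γ V _ G x l m f hr hγ hD hf hnb hcw
  set y : V → ℝ := fun i => x i ^ 2 with hy
  have hy0 : ∀ i, 0 ≤ y i := fun i => sq_nonneg _
  have hr0 : (0 : ℝ) < r := by
    have : 0 < r := by omega
    exact_mod_cast this
  have hm : (0 : ℝ) < m := by exact_mod_cast hD.pos
  set D : ℝ := cw y f none with hDd
  have hD0 : 0 ≤ D := by
    rw [hDd]
    unfold cw
    exact Finset.sum_nonneg fun i _ => by split_ifs <;> [exact hy0 i; exact le_rfl]
  have hsum : ∑ t, cw y f (some t) = 1 - D := by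
    have h1 := sum_cw y f
    have h2 : ∑ i, y i = 1 := hD.unit
    rw [h2] at h1
    linarith
  have hq := qf_le G y f hy0 hf
  rw [hsum] at hq
  have h3 : ∑ w, v0 y f w * nb G y w ≤ D * (1 - 1 / (r : ℝ) - γ) := by
    have : D = ∑ w, v0 y f w := rfl
    rw [this, Finset.sum_mul]
    refine Finset.sum_le_sum fun w _ => ?_
    unfold v0
    split_ifs with h
    · exact mul_le_mul_of_nonneg_left (hnb w h) (hy0 w)
    · simp
  have h4 : ∑ t, (cw y f (some t) - (1 - D) / r) ^ 2 =
      ∑ t, cw y f (some t) ^ 2 - (1 - D) ^ 2 / r := by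
    have h5 : ∀ t, (cw y f (some t) - (1 - D) / r) ^ 2 = cw y f (some t) ^ 2 -
        2 * ((1 - D) / r) * cw y f (some t) + ((1 - D) / r) ^ 2 := fun t => by ring
    simp only [h5, Finset.sum_add_distrib, Finset.sum_sub_distrib]
    rw [← Finset.mul_sum, hsum]
    simp only [Finset.sum_const, Finset.card_univ, Fintype.card_fin, nsmul_eq_mul]
    field_simp
    ring
  have hvE := vE_eq G x l m hD
  have hb : (1 : ℝ) - 1 / r ≤ 1 := by
    have : (0 : ℝ) < 1 / r := by positivity
    linarith
  have h6 : γ * D + ∑ t, (cw y f (some t) - (1 - D) / r) ^ 2 + miss G y f + qf G y ≤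
      1 - 1 / (r : ℝ) := by
    rw [h4]
    have h7 : (1 - 1 / (r : ℝ)) * D ^ 2 ≤ γ * D := by
      nlinarith [mul_le_mul_of_nonneg_right hb (sq_nonneg D), mul_le_mul_of_nonneg_left hcw hD0]
    have h8 : (1 - D) ^ 2 / (r : ℝ) = (1 - D) ^ 2 * (1 / r) := by ring
    rw [h8]
    nlinarith
  have h9 : 2 * (m : ℝ) * (γ * D + ∑ t, (cw y f (some t) - (1 - D) / r) ^ 2 + miss G y f +
      vE G x (l / (2 * m))) = 2 * m * (γ * D + ∑ t, (cw y f (some t) - (1 - D) / r) ^ 2 +
      miss G y f + qf G y) - l ^ 2 := by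
    have : qf G y = qf G (fun i => x i ^ 2) := rfl
    rw [this]
    linarith [hvE]
  rw [h9]
  have h10 : 2 * (m : ℝ) * (γ * D + ∑ t, (cw y f (some t) - (1 - D) / r) ^ 2 +
      miss G y f + qf G y) ≤ 2 * m * (1 - 1 / (r : ℝ)) :=
    mul_le_mul_of_nonneg_left h6 (by positivity)
  linarith

end MP0c3a8f
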