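import Mathlib

/-!
# MP_0c3a8f_co: definitions

Spectral radius of `F`-free graphs of given size which are not `r`-partite.
-/

open Finset

namespace MP0c3a8f

open Classical in
/-- entries of the adjacency matrix -/
noncomputable def adj {V : Type} (G : SimpleGraph V) (i j : V) : ℝ := if G.Adj i j then 1 else 0

/-- the spectral radius: the largest eigenvalue of the adjacency matrix -/
noncomputable def lam {V : Type} [Fintype V] (G : SimpleGraph V) : ℝ :=
  sSup {μ : ℝ | ∃ x : V → ℝ, x ≠ 0 ∧ ∀ i, ∑ j, adj G i j * x j = μ * x i}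

/-- `G` is in `N_r(m, F)`: an `F`-free graph with `m` edges and without isolated vertices which is
not `r`-partite -/
structure InN {V W : Type} (r m : ℕ) (F : SimpleGraph W) (G : SimpleGraph V) : Prop where
  free : F.Free G
  size : G.edgeSet.ncard = m
  noIso : ∀ v, ∃ w, G.Adj v w
  notPartite : ¬ G.Colorable r

/-- some edge can be deleted such that the chromatic number decreases -/
def ColorCritical {W : Type} (F : SimpleGraph W) : Prop :=
  ∃ e ∈ F.edgeSet, (F.deleteEdges {e}).chromaticNumber < F.chromaticNumber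

/-- the pairs of vertices in different parts which are not adjacent; `f v = some t` means that
`v` is in the part `t`, `f v = none` that `v` is in no part -/
def missSet {V : Type} {r : ℕ} (G : SimpleGraph V) (f : V → Option (Fin r)) : Set (Sym2 V) :=
  {e | ∃ v w, e = s(v, w) ∧ f v ≠ none ∧ f w ≠ none ∧ f v ≠ f w ∧ ¬ G.Adj v w}

/-- the edges which meet the set of the vertices in no part -/
def outSet {V : Type} {r : ℕ} (G : SimpleGraph V) (f : V → Option (Fin r)) : Set (Sym2 V) :=
  {e | e ∈ G.edgeSet ∧ ∃ v ∈ e, f v = none}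

/-- the parts are independent sets -/
def Indep {V : Type} {r : ℕ} (G : SimpleGraph V) (f : V → Option (Fin r)) : Prop :=
  ∀ v w, f v ≠ none → f v = f w → ¬ G.Adj v w

/-- `G` arises from the complete `r`-partite graph with parts of size `s` (the vertices with
`f v = some t` form the part `t`) by deleting `a` edges and adding `b` edges, each of which
meets the set of the new vertices (`f v = none`) -/
structure IsMod {V : Type} (r s a b : ℕ) (G : SimpleGraph V) (f : V → Option (Fin r)) : Prop where
  size : ∀ t, {v | f v = some t}.ncard = s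
  indep : Indep G f
  miss : (missSet G f).ncard = a
  outer : (outSet G f).ncard = b

/-- the complete `r`-partite graph with parts of size `s` and one new vertex `none`, joined to one
vertex of each part -/
def TU (r s : ℕ) : SimpleGraph (Option (Fin r × Fin s)) :=
  SimpleGraph.fromRel fun p q =>
    match p, q with
    | some p, some q => p.1 ≠ q.1
    | none, some q => q.2.val = 0
    | some p, none => p.2.val = 0
    | none, none => False

/-- the same graph without the edge between the neighbours of the new vertex in the first two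
parts -/
def TUM (r s : ℕ) : SimpleGraph (Option (Fin r × Fin s)) :=
  SimpleGraph.fromRel fun p q =>
    match p, q with
    | some p, some q => p.1 ≠ q.1 ∧ ¬ (p.2.val = 0 ∧ q.2.val = 0 ∧ p.1.val ≤ 1 ∧ q.1.val ≤ 1)
    | none, some q => q.2.val = 0
    | some p, none => p.2.val = 0
    | none, none => False

/-! ### auxiliary definitions -/

/-- quadratic form of the adjacency matrix -/
noncomputable def qf {V : Type} [Fintype V] (G : SimpleGraph V) (y : V → ℝ) : ℝ :=
  ∑ i, ∑ j, adj G i j * (y i * y j)

/-- weight of the neighbourhood -/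
noncomputable def nb {V : Type} [Fintype V] (G : SimpleGraph V) (y : V → ℝ) (w : V) : ℝ :=
  ∑ j, adj G w j * y j

open Classical in
/-- weight of the part `o` -/
noncomputable def cw {V : Type} [Fintype V] {r : ℕ} (y : V → ℝ) (f : V → Option (Fin r))
    (o : Option (Fin r)) : ℝ :=
  ∑ i, if f i = o then y i else 0

open Classical in
/-- weight of the (ordered) missing pairs -/
noncomputable def miss {V : Type} [Fintype V] {r : ℕ} (G : SimpleGraph V) (y : V → ℝ)
    (f : V → Option (Fin r)) : ℝ :=
  ∑ i, ∑ j, if f i ≠ none ∧ f j ≠ none ∧ f i ≠ f j ∧ ¬ G.Adj i j then y i * y j else 0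

/-- ordered cliques -/
def cl {V : Type} {k : ℕ} (G : SimpleGraph V) (v : Fin k → V) : Prop :=
  ∀ i j, i ≠ j → G.Adj (v i) (v j)

open Classical in
/-- weight of the ordered cliques with `k` vertices -/
noncomputable def hh {V : Type} [Fintype V] (G : SimpleGraph V) (y : V → ℝ) (k : ℕ) : ℝ :=
  ∑ v : Fin k → V, if cl G v then ∏ t, y (v t) else 0

open Classical in
/-- weight of the common neighbourhood -/
noncomputable def dd {V : Type} [Fintype V] {k : ℕ} (G : SimpleGraph V) (y : V → ℝ)
    (v : Fin k → V) : ℝ :=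
  ∑ w, if ∀ t, G.Adj w (v t) then y w else 0

/-- adjacent to all members of `v` except the member `t` -/
def InB {V : Type} {k : ℕ} (G : SimpleGraph V) (v : Fin k → V) (t : Fin k) (w : V) : Prop :=
  (∀ s, s ≠ t → G.Adj w (v s)) ∧ ¬ G.Adj w (v t)

open Classical in
/-- weight of the vertices which are adjacent to all members of `v` but one -/
noncomputable def gg {V : Type} [Fintype V] {k : ℕ} (G : SimpleGraph V) (y : V → ℝ)
    (v : Fin k → V) : ℝ :=
  ∑ w, if ∃ t, InB G v t w then y w else 0

open Classical in
/-- weight of the ordered edges in the common neighbourhood of all members of `v` except `t` -/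
noncomputable def ii {V : Type} [Fintype V] {k : ℕ} (G : SimpleGraph V) (y : V → ℝ)
    (v : Fin k → V) (t : Fin k) : ℝ :=
  ∑ i, ∑ j, if G.Adj i j ∧ (∀ s, s ≠ t → G.Adj i (v s)) ∧ (∀ s, s ≠ t → G.Adj j (v s))
    then y i * y j else 0

/-- unit Perron vector `x` with eigenvalue `l` of a graph with `m` edges -/
structure Data {V : Type} [Fintype V] (G : SimpleGraph V) (x : V → ℝ) (l : ℝ) (m : ℕ) : Prop where
  nonneg : ∀ i, 0 ≤ x i
  unit : ∑ i, x i ^ 2 = 1
  eig : ∀ i, ∑ j, adj G i j * x j = l * x i
  edges : ∑ i, ∑ j, adj G i j = 2 * m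
  pos : 0 < m
  l_nonneg : 0 ≤ l

/-- the edges `ij` with `x i * x j` of order `1 / sqrt m` -/
def mid {V : Type} (G : SimpleGraph V) (x : V → ℝ) (K : ℝ) (m : ℕ) : SimpleGraph V where
  Adj i j := G.Adj i j ∧ 1 / (K * Real.sqrt m) ≤ x i * x j ∧ x i * x j ≤ K / Real.sqrt m
  symm := ⟨fun i j h => ⟨h.1.symm, by rw [mul_comm (x j) (x i)]; exact h.2.1,
    by rw [mul_comm (x j) (x i)]; exact h.2.2⟩⟩
  loopless := ⟨fun i h => G.loopless.irrefl i h.1⟩

/-- the variance term -/
noncomputable def vE {V : Type} [Fintype V] (G : SimpleGraph V) (x : V → ℝ) (c : ℝ) : ℝ :=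
  ∑ i, ∑ j, adj G i j * (x i * x j - c) ^ 2

/-- `F` minus the edge `ab` has a colouring with `r` colours in which `a` and `b` get the same
colour -/
def Crit {W : Type} (r : ℕ) (F : SimpleGraph W) : Prop :=
  ∃ a b, F.Adj a b ∧ ∃ c : W → Fin r, c a = c b ∧
    ∀ u v, F.Adj u v → s(u, v) ≠ s(a, b) → c u ≠ c v

/-- the type `(a, b)` occurs for arbitrarily large parts -/
def Real {W : Type} (r : ℕ) (F : SimpleGraph W) (a b : ℕ) : Prop :=
  ∀ s₀ : ℕ, ∃ s ≥ s₀, ∃ (k : ℕ) (G : SimpleGraph (Fin k)) (f : Fin k → Option (Fin r)),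
    IsMod r s a b G f ∧ F.Free G ∧ ¬ G.Colorable r ∧ ∀ v, ∃ w, G.Adj v w

end MP0c3a8f
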