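import Pool.Agent.Work.MP_0c3a8f_co.Stmts

open Finset

namespace MP0c3a8f

theorem prfCLS : GRD_statement → CLS_statement := by
  classical
  intro hGRD r s a V _ G f hr hM hcol hiso
  -- colouring of the core
  have hprop : ∀ u v, f u ≠ none → f v ≠ none → G.Adj u v →
      (f u).getD ⟨0, by omega⟩ ≠ (f v).getD ⟨0, by omega⟩ := by
    intro u v hu hv huv e
    have h1 := hM.indep u v hu
    obtain ⟨x, hx⟩ := Option.ne_none_iff_exists'.1 hu
    obtain ⟨y, hy⟩ := Option.ne_none_iff_exists'.1 hv
    simp only [hx, hy, Option.getD_some] at e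
    exact h1 (by rw [hx, hy, e]) huv
  -- neighbourhoods of the outer vertices
  have hsub : ∀ v, f v = none → (fun w => s(v, w)) '' {w | G.Adj v w} ⊆ outSet G f := by
    rintro v hv _ ⟨w, hw, rfl⟩
    exact ⟨hw, v, Sym2.mem_mk_left v w, hv⟩
  have hinj : ∀ v, Set.InjOn (fun w => s(v, w)) {w | G.Adj v w} := by
    intro v w _ w' _ e
    have h3 : w = w' ∨ v = w' ∧ w = v := by simpa using e
    rcases h3 with h3 | ⟨h3, h4⟩
    · exact h3
    · rw [h4, h3]
  have hcard : ∀ v, ((fun w => s(v, w)) '' {w | G.Adj v w}).ncard = {w | G.Adj v w}.ncard :=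
    fun v => (hinj v).ncard_image
  have hle : ∀ v, f v = none → {w | G.Adj v w}.ncard ≤ r := by
    intro v hv
    rw [← hcard v, ← hM.outer]
    exact Set.ncard_le_ncard (hsub v hv) (Set.toFinite _)
  -- the vertex u
  obtain ⟨u, hu, hur⟩ : ∃ u, f u = none ∧ r ≤ {w | G.Adj u w}.ncard := by
    by_contra hcon
    push Not at hcon
    apply hcol
    refine hGRD r V G {v | f v ≠ none} (fun v => (f v).getD ⟨0, by omega⟩) ?_ ?_
    · intro x y hx hy hxy
      exact hprop x y hx hy hxy
    · intro v hv
      exact hcon v (by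
        by_contra h
        exact hv h)
  have hNu : {w | G.Adj u w}.ncard = r := le_antisymm (hle u hu) hur
  have himg : (fun w => s(u, w)) '' {w | G.Adj u w} = outSet G f := by
    refine Set.eq_of_subset_of_ncard_le (hsub u hu) ?_ (Set.toFinite _)
    rw [hcard u, hNu, hM.outer]
  have hmem : ∀ e ∈ outSet G f, u ∈ e := by
    intro e he
    rw [← himg] at he
    obtain ⟨w, -, rfl⟩ := he
    exact Sym2.mem_mk_left u w
  have hother : ∀ v, v ≠ u → f v = none → ∀ w, G.Adj v w → w = u := by
    intro v hv hfv w hw
    have h1 := hmem _ (hsub v hfv ⟨w, hw, rfl⟩)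
    rcases Sym2.mem_iff.1 h1 with h2 | h2
    · exact absurd h2.symm hv
    · exact h2.symm
  -- all colours are used by the neighbours of u
  have hA : ∀ t, ∃ w, G.Adj u w ∧ f w = some t := by
    by_contra hcon
    push Not at hcon
    obtain ⟨t, ht⟩ := hcon
    apply hcol
    refine hGRD r V G {v | f v ≠ none ∨ v = u}
      (fun v => if v = u then t else (f v).getD ⟨0, by omega⟩) ?_ ?_
    · have key : ∀ w, f w ≠ none → G.Adj u w → t ≠ (f w).getD ⟨0, by omega⟩ := by
        intro w hw huw e
        obtain ⟨y, hy⟩ := Option.ne_none_iff_exists'.1 hw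
        rw [hy, Option.getD_some] at e
        exact ht w huw (by rw [hy, e])
      intro x y hx hy hxy
      by_cases hxu : x = u
      · subst hxu
        have hyx : y ≠ x := hxy.ne.symm
        rw [if_pos rfl, if_neg hyx]
        exact key y (hy.resolve_right hyx) hxy
      · by_cases hyu : y = u
        · subst hyu
          rw [if_pos rfl, if_neg hxu]
          exact (key x (hx.resolve_right hxu) hxy.symm).symm
        · rw [if_neg hxu, if_neg hyu]
          exact hprop x y (hx.resolve_right hxu) (hy.resolve_right hyu) hxy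
    · intro v hv
      have hv1 : f v = none := by
        by_contra h
        exact hv (Or.inl h)
      have hv2 : v ≠ u := fun h => hv (Or.inr h)
      have h1 : {w | G.Adj v w}.ncard ≤ ({u} : Set V).ncard :=
        Set.ncard_le_ncard (fun w hw => hother v hv2 hv1 w hw) (Set.toFinite _)
      rw [Set.ncard_singleton] at h1
      omega
  choose q hq1 hq2 using hA
  have hqinj : Function.Injective q := by
    intro t t' h
    have h1 := hq2 t
    rw [h, hq2 t'] at h1
    exact (Option.some.inj h1).symm
  have hrange : Set.range q = {w | G.Adj u w} := by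
    refine Set.eq_of_subset_of_ncard_le ?_ ?_ (Set.toFinite _)
    · rintro _ ⟨t, rfl⟩
      exact hq1 t
    · rw [hNu, ← Set.image_univ, Set.ncard_image_of_injective _ hqinj, Set.ncard_univ,
        Nat.card_fin]
  refine ⟨u, q, ?_, hq2, ?_⟩
  · intro v
    constructor
    · intro hv
      by_contra hvu
      obtain ⟨w, hw⟩ := hiso v
      have h1 := hother v hvu hv w hw
      rw [h1] at hw
      have h2 : v ∈ Set.range q := by
        rw [hrange]
        exact hw.symm
      obtain ⟨t, rfl⟩ := h2
      rw [hq2 t] at hv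
      exact absurd hv (by simp)
    · rintro rfl
      exact hu
  · intro w
    constructor
    · intro hw
      have h2 : w ∈ Set.range q := by
        rw [hrange]
        exact hw
      obtain ⟨t, rfl⟩ := h2
      exact ⟨t, rfl⟩
    · rintro ⟨t, rfl⟩
      exact hq1 t

end MP0c3a8f
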