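import Pool.Agent.Work.MP_0c3a8f_co.Stmts

open Finset

namespace MP0c3a8f

/-- a uniform bound for the types which do not occur -/
theorem exists_bound {W : Type} [Fintype W] (F : SimpleGraph W) (r N : ℕ)
    (h : ∀ a' b', a' + b' < N → ¬ Real r F a' b') :
    ∃ S : ℕ, ∀ a' b', a' + b' < N → ∀ s ≥ S, ¬ ∃ (k : ℕ) (G : SimpleGraph (Fin k))
      (f : Fin k → Option (Fin r)),
      IsMod r s a' b' G f ∧ F.Free G ∧ ¬ G.Colorable r ∧ ∀ v, ∃ w, G.Adj v w := by
  have h1 : ∀ a' b', ∃ s₀ : ℕ, a' + b' < N → ∀ s ≥ s₀, ¬ ∃ (k : ℕ) (G : SimpleGraph (Fin k))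
      (f : Fin k → Option (Fin r)),
      IsMod r s a' b' G f ∧ F.Free G ∧ ¬ G.Colorable r ∧ ∀ v, ∃ w, G.Adj v w := by
    intro a' b'
    by_cases hN : a' + b' < N
    · have h2 := h a' b' hN
      by_contra hcon
      apply h2
      intro s₀
      by_contra h3
      exact hcon ⟨s₀, fun _ s hs h4 => h3 ⟨s, hs, h4⟩⟩
    · exact ⟨0, fun h => absurd h hN⟩
  choose σ hσ using h1
  refine ⟨∑ a' ∈ range (N + 1), ∑ b' ∈ range (N + 1), σ a' b', ?_⟩
  intro a' b' hab s hs
  refine hσ a' b' hab s (le_trans ?_ hs)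
  calc σ a' b' ≤ ∑ b' ∈ range (N + 1), σ a' b' :=
        Finset.single_le_sum (f := fun b' => σ a' b') (fun _ _ => Nat.zero_le _)
          (Finset.mem_range.mpr (by omega))
    _ ≤ ∑ a' ∈ range (N + 1), ∑ b' ∈ range (N + 1), σ a' b' :=
        Finset.single_le_sum (f := fun a' => ∑ b' ∈ range (N + 1), σ a' b')
          (fun _ _ => Nat.zero_le _) (Finset.mem_range.mpr (by omega))

theorem prfFINL (hStr : STR_statement) (hRed : RED_statement) (hLow : LOW_statement)
    (hCnt : CNT_statement) : FINL_statement := by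
  intro W _ F r a b hr hcrit hcol hreal hmin
  obtain ⟨S, hS⟩ := exists_bound F r (a + b) (fun a' b' h h' => by
    have := hmin a' b' h'
    omega)
  have hr0 : (3 : ℝ) ≤ r := by exact_mod_cast hr
  have hβ : (2 : ℝ) / 3 ≤ 1 - 1 / (r : ℝ) := by
    have : 1 / (r : ℝ) ≤ 1 / 3 := one_div_le_one_div_of_le (by norm_num) hr0
    linarith
  set β : ℝ := 1 - 1 / (r : ℝ) with hβdef
  set S' : ℕ := S + 2 * (a + b) + 1 with hS'
  -- minimality
  have hB : ∀ (V : Type) [Fintype V] (G : SimpleGraph V) (g : V → Option (Fin r)),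
      F.Free G → ¬ G.Colorable r → (∀ v, ∃ w, G.Adj v w) → Indep G g →
      (∀ t, S' ≤ {i | g i = some t}.ncard) →
      a + b ≤ (missSet G g).ncard + (outSet G g).ncard := by
    intro V _ G g h1 h2 h3 h4 h5
    by_contra hlt
    push Not at hlt
    obtain ⟨k, H, f, h6, h7, h8, h9⟩ := hRed W F r S' V G g hr h4 (by omega) h5 h1 h2 h3
    exact hS _ _ hlt S' (by omega) ⟨k, H, f, h6, h7, h8, h9⟩
  have t0 : Fin r := ⟨0, by omega⟩
  refine ⟨?_, ?_⟩
  · intro ε hε
    obtain ⟨m₀, hm₀⟩ := hStr W F r hr hcrit hcol (2 * β * (a + b)) ε S' hε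
    refine ⟨m₀, ?_⟩
    intro m hm V _ G hG
    by_contra hlt
    push Not at hlt
    obtain ⟨g, h1, h2, h3⟩ := hm₀ V G hG.free (by rw [hG.size]; exact hm) (by
      rw [hG.size]
      nlinarith)
    have h4 := h3 t0 t0
    rw [hG.size, sub_self] at h4
    have h5 := hB V G g hG.free hG.notPartite hG.noIso h1 h2
    have h6 : ((a : ℝ) + b) ≤ (missSet G g).ncard + (outSet G g).ncard := by exact_mod_cast h5
    nlinarith
  · obtain ⟨m₀, hm₀⟩ := hStr W F r hr hcrit hcol (2 * β * (a + b)) (1 / 10 ^ 7) S' (by norm_num)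
    refine ⟨S' + m₀ + a + 1, ?_⟩
    intro s hs m hm
    have hs1 : 1 ≤ s := by omega
    have hch : 1 ≤ r.choose 2 := Nat.choose_pos (by omega)
    have hmm : m₀ ≤ m := by
      have h1 : s ≤ r.choose 2 * s ^ 2 := by nlinarith
      omega
    refine ⟨?_, ?_⟩
    · obtain ⟨s', hs', k, G, f, h1, h2, h3, h4⟩ := hreal s
      obtain ⟨k', H, f', h5, h6, h7, h8⟩ := hRed W F r s (Fin k) G f hr h1.indep
        (by rw [h1.miss, h1.outer]; omega) (by intro t; rw [h1.size]; exact hs') h2 h3 h4
      rw [h1.miss, h1.outer] at h5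
      have h9 := hCnt r s a b (Fin k') H f' h5
      have h10 : H.edgeSet.ncard = m := by omega
      refine ⟨k', H, ⟨h6, h10, h8, h7⟩, ?_⟩
      have h11 := hLow r s a b (Fin k') H f' (by omega) hs1 h5
      rw [h10] at h11
      exact h11
    · intro V _ G hG hlam
      obtain ⟨g, h1, h2, h3⟩ := hm₀ V G hG.free (by rw [hG.size]; exact hmm) (by
        rw [hG.size]
        nlinarith)
      rw [hG.size] at h3
      have h5 := hB V G g hG.free hG.notPartite hG.noIso h1 h2
      have h6 : ((a : ℝ) + b) ≤ (missSet G g).ncard + (outSet G g).ncard := by exact_mod_cast h5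
      have hsize : ∀ s t, {i | g i = some s}.ncard = {i | g i = some t}.ncard := by
        intro s t
        have h4 := h3 s t
        by_contra hne
        have h7 : (1 : ℝ) ≤ (({i | g i = some s}.ncard : ℝ) - ({i | g i = some t}.ncard : ℝ)) ^ 2 := by
          have h8 : (({i | g i = some s}.ncard : ℤ) - ({i | g i = some t}.ncard : ℤ)) ≠ 0 := by
            intro h
            apply hne
            omega
          have h9 : (1 : ℤ) ≤ (({i | g i = some s}.ncard : ℤ) - ({i | g i = some t}.ncard : ℤ)) ^ 2 := by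
            have := sq_pos_of_ne_zero h8
            omega
          exact_mod_cast h9
        nlinarith
      have h7 : (missSet G g).ncard + (outSet G g).ncard ≤ a + b := by
        have h4 := h3 t0 t0
        rw [sub_self] at h4
        by_contra hlt
        push Not at hlt
        have h8 : ((a : ℝ) + b) + 1 ≤ (missSet G g).ncard + (outSet G g).ncard := by
          exact_mod_cast hlt
        nlinarith
      have hmod : IsMod r {i | g i = some t0}.ncard (missSet G g).ncard (outSet G g).ncard G g :=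
        ⟨fun t => hsize t t0, h1, rfl, rfl⟩
      have h8 := hCnt _ _ _ _ V G g hmod
      rw [hG.size] at h8
      set s' := {i | g i = some t0}.ncard with hs'
      have hss : s' = s := by
        rcases lt_trichotomy s' s with h | h | h
        · exfalso
          have h9 : s' ^ 2 + 2 * s ≤ s ^ 2 + 1 := by nlinarith
          have h10 : r.choose 2 * s' ^ 2 + 2 * s ≤ r.choose 2 * s ^ 2 + 1 := by
            nlinarith
          omega
        · exact h
        · exfalso
          have h9 : s ^ 2 + 2 * s + 1 ≤ s' ^ 2 := by nlinarith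
          have h10 : r.choose 2 * s ^ 2 + 2 * s + 1 ≤ r.choose 2 * s' ^ 2 := by
            nlinarith
          omega
      rw [hss] at h8 hmod
      refine ⟨g, ?_⟩
      have h9 : (missSet G g).ncard = a := by omega
      have h10 : (outSet G g).ncard = b := by omega
      rw [h9, h10] at hmod
      exact hmod

end MP0c3a8f
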