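import Pool.Agent.Work.MP_0c3a8f_co.Stmts

/-!
# MP_0c3a8f_co: item STR, the structure theorem
-/

open Finset

namespace MP0c3a8f

namespace ISTR

variable {V : Type} [Fintype V]

lemma zz {c : ℝ} (hc : 0 < c) (a b : ℝ) :
    (a / Real.sqrt c) * (b / Real.sqrt c) = a * b / c := by
  rw [div_mul_div_comm, Real.mul_self_sqrt hc.le]

lemma z2 {c : ℝ} (hc : 0 < c) (a : ℝ) : (a / Real.sqrt c) ^ 2 = a ^ 2 / c := by
  rw [div_pow, Real.sq_sqrt hc.le]

lemma sc_vE (G : SimpleGraph V) (x : V → ℝ) {c : ℝ} (hc : 0 < c) :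
    ∑ i, ∑ j, adj G i j * ((x i / Real.sqrt c) * (x j / Real.sqrt c) - 1) ^ 2 =
      vE G x c / c ^ 2 := by
  unfold vE
  rw [Finset.sum_div]
  refine Finset.sum_congr rfl fun i _ => ?_
  rw [Finset.sum_div]
  refine Finset.sum_congr rfl fun j _ => ?_
  rw [zz hc]
  field_simp

lemma sc_miss {r : ℕ} (G : SimpleGraph V) (x : V → ℝ) (f : V → Option (Fin r)) {c : ℝ}
    (hc : 0 < c) :
    miss G (fun i => (x i / Real.sqrt c) ^ 2) f = miss G (fun i => x i ^ 2) f / c ^ 2 := by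
  unfold miss
  rw [Finset.sum_div]
  refine Finset.sum_congr rfl fun i _ => ?_
  rw [Finset.sum_div]
  refine Finset.sum_congr rfl fun j _ => ?_
  split_ifs
  · show (x i / Real.sqrt c) ^ 2 * (x j / Real.sqrt c) ^ 2 = _
    rw [z2 hc, z2 hc]
    field_simp
  · rw [zero_div]

lemma sc_cw {r : ℕ} (x : V → ℝ) (f : V → Option (Fin r)) (o : Option (Fin r)) {c : ℝ}
    (hc : 0 < c) :
    cw (fun i => (x i / Real.sqrt c) ^ 2) f o = cw (fun i => x i ^ 2) f o / c := by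
  unfold cw
  rw [Finset.sum_div]
  refine Finset.sum_congr rfl fun i _ => ?_
  split_ifs
  · show (x i / Real.sqrt c) ^ 2 = _
    rw [z2 hc]
  · rw [zero_div]

lemma vE_nonneg (G : SimpleGraph V) (x : V → ℝ) (c : ℝ) : 0 ≤ vE G x c := by
  unfold vE adj
  refine Finset.sum_nonneg fun i _ => Finset.sum_nonneg fun j _ => ?_
  split_ifs
  · positivity
  · simp

lemma miss_nonneg {r : ℕ} (G : SimpleGraph V) (y : V → ℝ) (f : V → Option (Fin r))
    (hy : ∀ i, 0 ≤ y i) : 0 ≤ miss G y f := by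
  unfold miss
  refine Finset.sum_nonneg fun i _ => Finset.sum_nonneg fun j _ => ?_
  split_ifs
  · exact mul_nonneg (hy i) (hy j)
  · exact le_refl _

lemma cw_nonneg {r : ℕ} (y : V → ℝ) (f : V → Option (Fin r)) (o : Option (Fin r))
    (hy : ∀ i, 0 ≤ y i) : 0 ≤ cw y f o := by
  unfold cw
  refine Finset.sum_nonneg fun i _ => ?_
  split_ifs
  · exact hy i
  · exact le_refl _

lemma miss_mono {r : ℕ} (G : SimpleGraph V) (y : V → ℝ) (f g : V → Option (Fin r))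
    (hy : ∀ i, 0 ≤ y i) (hg : ∀ i, g i ≠ none → g i = f i) : miss G y g ≤ miss G y f := by
  unfold miss
  refine Finset.sum_le_sum fun i _ => Finset.sum_le_sum fun j _ => ?_
  by_cases h : g i ≠ none ∧ g j ≠ none ∧ g i ≠ g j ∧ ¬ G.Adj i j
  · have hi := hg i h.1
    have hj := hg j h.2.1
    rw [if_pos h, if_pos ⟨hi ▸ h.1, hj ▸ h.2.1, by rw [← hi, ← hj]; exact h.2.2.1, h.2.2.2⟩]
  · rw [if_neg h]
    split_ifs
    · exact mul_nonneg (hy i) (hy j)
    · exact le_refl _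

lemma cw_le {r : ℕ} (y : V → ℝ) (g : V → Option (Fin r)) (t : Fin r) (B : ℝ)
    (hy : ∀ i, y i ≤ B) : cw y g (some t) ≤ ({i | g i = some t}.ncard : ℝ) * B := by
  classical
  unfold cw
  rw [← Finset.sum_filter]
  have e : ({i | g i = some t}.ncard : ℝ) = ((Finset.univ.filter fun i => g i = some t).card : ℝ) := by
    have : {i | g i = some t} = ((Finset.univ.filter fun i => g i = some t : Finset V) : Set V) := by
      ext i
      simp
    rw [this, Set.ncard_coe_finset]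
  rw [e, ← nsmul_eq_mul]
  exact Finset.sum_le_card_nsmul _ _ _ fun i _ => hy i

lemma two_sq {r : ℕ} (u : Fin r → ℝ) (c : ℝ) (s t : Fin r) (hst : s ≠ t) :
    (u s - u t) ^ 2 ≤ 2 * ∑ q, (u q - c) ^ 2 := by
  have h1 : (u s - c) ^ 2 + (u t - c) ^ 2 ≤ ∑ q, (u q - c) ^ 2 := by
    have := Finset.sum_le_sum_of_subset_of_nonneg (s := {s, t}) (t := Finset.univ)
      (f := fun q => (u q - c) ^ 2) (Finset.subset_univ _) (fun _ _ _ => sq_nonneg _)
    rwa [Finset.sum_pair hst] at this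
  nlinarith [sq_nonneg (u s - c + (u t - c))]

end ISTR

open ISTR in
theorem prfSTR (hP : P_statement) (hE : EDG_statement) (hS : STB_statement)
    (hCOR : COR_statement) (hK : KEY_statement) (hN : NRM_statement) (hV : CNV_statement)
    (hY : YU_statement) (hB : BAL_statement) : STR_statement := by
  classical
  intro W _ F r hr hcrit hcol C0 ε s₁ hε
  obtain ⟨C, hC0, hC1⟩ : ∃ C : ℝ, C0 ≤ C ∧ 1 ≤ C := ⟨max C0 1, le_max_left _ _, le_max_right _ _⟩
  have hr3 : (3 : ℝ) ≤ (r : ℝ) := by exact_mod_cast hr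
  have hr0 : (0 : ℝ) < (r : ℝ) := by linarith
  obtain ⟨γ, hγ⟩ : ∃ γ : ℝ, γ = 1 / (16 * (r : ℝ)) := ⟨_, rfl⟩
  have hγ0 : 0 < γ := by rw [hγ]; positivity
  have hγ1 : γ ≤ 1 / 4 := by
    rw [hγ, div_le_div_iff₀ (by positivity) (by norm_num)]
    linarith
  have hβ1 : (1 : ℝ) - 1 / (r : ℝ) < 1 := by
    have : 0 < 1 / (r : ℝ) := by positivity
    linarith
  have hβ0 : 2 / 3 ≤ (1 : ℝ) - 1 / (r : ℝ) := by
    have : 1 / (r : ℝ) ≤ 1 / 3 := one_div_le_one_div_of_le (by norm_num) hr3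
    linarith
  obtain ⟨δ, hδ0, hδ1, hδ2⟩ : ∃ δ : ℝ, 0 < δ ∧ δ ≤ 1 / 20 ∧ 64 * C * δ ≤ ε := by
    refine ⟨min (1 / 20) (ε / (64 * C)), lt_min (by norm_num) (by positivity), min_le_left _ _, ?_⟩
    have h1 : min (1 / 20) (ε / (64 * C)) ≤ ε / (64 * C) := min_le_right _ _
    have h2 : 64 * C * min (1 / 20) (ε / (64 * C)) ≤ 64 * C * (ε / (64 * C)) :=
      mul_le_mul_of_nonneg_left h1 (by positivity)
    refine h2.trans (le_of_eq ?_)
    field_simp
  obtain ⟨εc, hεc, hcor⟩ := hCOR W F r γ hr hcrit hγ0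
  obtain ⟨ε0, hε0, m1, hstb⟩ := hS W F r εc hr hcol hεc
  obtain ⟨Q0, hQ0, hnrm⟩ := hN r δ (2 * C) hr hδ0 (by positivity)
  obtain ⟨m2, hbal⟩ := hB ⌈4 * C⌉₊
  obtain ⟨Lm, hL0, hL1, hL2, hL3, hL4⟩ : ∃ Lm : ℝ, 0 ≤ Lm ∧ C ≤ γ * δ ^ 2 * Lm ∧
      4 * r * Q0 ≤ Lm ∧ 242 * C ≤ Lm ∧ 5 * r * ((s₁ : ℝ) + 1) ≤ Lm := by
    refine ⟨C / (γ * δ ^ 2) + 4 * r * Q0 + 242 * C + 5 * r * ((s₁ : ℝ) + 1), by positivity,
      ?_, ?_, ?_, ?_⟩
    · have h1 : γ * δ ^ 2 * (C / (γ * δ ^ 2)) = C := by field_simp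
      have h2 : 0 ≤ γ * δ ^ 2 * (4 * r * Q0 + 242 * C + 5 * r * ((s₁ : ℝ) + 1)) := by positivity
      linarith
    · have h1 : 0 ≤ C / (γ * δ ^ 2) := by positivity
      have h2 : 0 ≤ 5 * (r : ℝ) * ((s₁ : ℝ) + 1) := by positivity
      linarith
    · have h1 : 0 ≤ C / (γ * δ ^ 2) := by positivity
      have h2 : 0 ≤ 5 * (r : ℝ) * ((s₁ : ℝ) + 1) := by positivity
      have h3 : 0 ≤ 4 * (r : ℝ) * Q0 := by positivity
      linarith
    · have h1 : 0 ≤ C / (γ * δ ^ 2) := by positivity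
      have h3 : 0 ≤ 4 * (r : ℝ) * Q0 := by positivity
      linarith
  obtain ⟨Mm, hM1, hM2, hM3, hM4, hM5⟩ : ∃ Mm : ℝ, Lm ^ 2 ≤ Mm ∧ 25 * C ≤ Mm ∧
      C ≤ ε0 * Mm ∧ 2 * C * (r : ℝ) ^ 2 ≤ Mm ∧ 8 * C ^ 2 ≤ ε * Mm := by
    refine ⟨Lm ^ 2 + 25 * C + C / ε0 + 2 * C * (r : ℝ) ^ 2 + 8 * C ^ 2 / ε, ?_, ?_, ?_, ?_, ?_⟩
    · have : 0 ≤ 25 * C + C / ε0 + 2 * C * (r : ℝ) ^ 2 + 8 * C ^ 2 / ε := by positivity
      linarith
    · have : 0 ≤ Lm ^ 2 + C / ε0 + 2 * C * (r : ℝ) ^ 2 + 8 * C ^ 2 / ε := by positivity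
      linarith
    · have h1 : ε0 * (C / ε0) = C := by field_simp
      have h2 : 0 ≤ ε0 * (Lm ^ 2 + 25 * C + 2 * C * (r : ℝ) ^ 2 + 8 * C ^ 2 / ε) := by positivity
      linarith
    · have : 0 ≤ Lm ^ 2 + 25 * C + C / ε0 + 8 * C ^ 2 / ε := by positivity
      linarith
    · have h1 : ε * (8 * C ^ 2 / ε) = 8 * C ^ 2 := by field_simp
      have h2 : 0 ≤ ε * (Lm ^ 2 + 25 * C + C / ε0 + 2 * C * (r : ℝ) ^ 2) := by positivity
      linarith
  refine ⟨max (max m1 m2) ⌈Mm⌉₊ + 1, ?_⟩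
  intro V _ G hfree hm hl
  obtain ⟨m, hmdef⟩ : ∃ m : ℕ, m = G.edgeSet.ncard := ⟨_, rfl⟩
  rw [← hmdef] at hm hl ⊢
  have hm1 : m1 ≤ m := by
    have := le_max_left (max m1 m2) ⌈Mm⌉₊
    have := le_max_left m1 m2
    omega
  have hm2 : m2 ≤ m := by
    have := le_max_left (max m1 m2) ⌈Mm⌉₊
    have := le_max_right m1 m2
    omega
  have hm0 : 0 < m := by omega
  have hmM : Mm ≤ (m : ℝ) := by
    have h1 : ⌈Mm⌉₊ ≤ m := by
      have := le_max_right (max m1 m2) ⌈Mm⌉₊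
      omega
    exact (Nat.le_ceil _).trans (by exact_mod_cast h1)
  have hMpos : (0 : ℝ) < (m : ℝ) := by exact_mod_cast hm0
  have : Nonempty V := by
    by_contra hne
    rw [not_nonempty_iff] at hne
    have : G.edgeSet = ∅ := by
      ext e
      induction e using Sym2.ind with
      | _ a b => exact (hne.false a).elim
    rw [this, Set.ncard_empty] at hmdef
    omega
  obtain ⟨hl0, -, x, hx0, hx1, hxe⟩ := hP V G
  obtain ⟨l, hldef⟩ : ∃ l : ℝ, l = lam G := ⟨_, rfl⟩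
  rw [← hldef] at hl0 hxe hl ⊢
  have D : Data G x l m := ⟨hx0, hx1, hxe, by rw [hE, hmdef], hm0, hl0⟩
  have hy0 : ∀ i, 0 ≤ (fun i => x i ^ 2) i := fun i => sq_nonneg _
  have hlC : 2 * (1 - 1 / (r : ℝ)) * m - C ≤ l ^ 2 := by linarith
  have hlm : (m : ℝ) ≤ l ^ 2 := by
    have h1 := mul_le_mul_of_nonneg_right hβ0 hMpos.le
    linarith
  have hlL : Lm ≤ l := by
    have h1 : Lm ^ 2 ≤ l ^ 2 := by linarith
    exact abs_le_of_sq_le_sq' h1 hl0 |>.2
  have hlpos : 0 < l := by linarith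
  -- the partition
  obtain ⟨f0, hf1, hf2, hf3, hf4⟩ := hstb V G x l m hfree D hm1 (by
    have h1 := mul_le_mul_of_nonneg_left hmM hε0.le
    linarith)
  obtain ⟨f, hI, hcwf, hnbf⟩ := hcor V G (fun i => x i ^ 2) f0 hfree hy0 hx1 hf1 hf2 hf3 hf4
  rw [← hγ] at hnbf
  have key1 := hK r γ V G x l m f (by omega) hγ0 D hI hnbf hcwf
  have nv := vE_nonneg G x (l / (2 * m))
  have nm := miss_nonneg G (fun i => x i ^ 2) f hy0
  have nc := cw_nonneg (fun i => x i ^ 2) f none hy0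
  have nS : 0 ≤ ∑ t, (cw (fun i => x i ^ 2) f (some t) -
      (1 - cw (fun i => x i ^ 2) f none) / r) ^ 2 := Finset.sum_nonneg fun _ _ => sq_nonneg _
  have hl2 : l ^ 2 ≤ 2 * m := by
    have h1 : 0 ≤ 2 * (m : ℝ) * (γ * cw (fun i => x i ^ 2) f none
      + ∑ t, (cw (fun i => x i ^ 2) f (some t) - (1 - cw (fun i => x i ^ 2) f none) / r) ^ 2
      + miss G (fun i => x i ^ 2) f + vE G x (l / (2 * m))) := by positivity
    have h2 := mul_le_mul_of_nonneg_right hβ1.le hMpos.le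
    linarith
  have kv : 2 * (m : ℝ) * vE G x (l / (2 * m)) ≤ C := by
    have h1 : 0 ≤ 2 * (m : ℝ) * (γ * cw (fun i => x i ^ 2) f none
      + ∑ t, (cw (fun i => x i ^ 2) f (some t) - (1 - cw (fun i => x i ^ 2) f none) / r) ^ 2
      + miss G (fun i => x i ^ 2) f) := by positivity
    linarith
  have km : 2 * (m : ℝ) * miss G (fun i => x i ^ 2) f ≤ C := by
    have h1 : 0 ≤ 2 * (m : ℝ) * (γ * cw (fun i => x i ^ 2) f none
      + ∑ t, (cw (fun i => x i ^ 2) f (some t) - (1 - cw (fun i => x i ^ 2) f none) / r) ^ 2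
      + vE G x (l / (2 * m))) := by positivity
    linarith
  have kc : 2 * (m : ℝ) * (γ * cw (fun i => x i ^ 2) f none) ≤ C := by
    have h1 : 0 ≤ 2 * (m : ℝ) * (∑ t, (cw (fun i => x i ^ 2) f (some t) -
      (1 - cw (fun i => x i ^ 2) f none) / r) ^ 2
      + miss G (fun i => x i ^ 2) f + vE G x (l / (2 * m))) := by positivity
    linarith
  have kS : 2 * (m : ℝ) * ∑ t, (cw (fun i => x i ^ 2) f (some t) -
      (1 - cw (fun i => x i ^ 2) f none) / r) ^ 2 ≤ C := by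
    have h1 : 0 ≤ 2 * (m : ℝ) * (γ * cw (fun i => x i ^ 2) f none
      + miss G (fun i => x i ^ 2) f + vE G x (l / (2 * m))) := by positivity
    linarith
  -- the general lower bound for the weights of the parts
  have lowb : ∀ (u : Fin r → ℝ) (w : ℝ), w ≤ 1 / 4 →
      2 * (m : ℝ) * ∑ t, (u t - (1 - w) / r) ^ 2 ≤ C → ∀ t, 1 / (4 * (r : ℝ)) ≤ u t := by
    intro u w hw hu t
    by_contra hlt
    push Not at hlt
    have h1 : (u t - (1 - w) / r) ^ 2 ≤ ∑ t, (u t - (1 - w) / r) ^ 2 :=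
      Finset.single_le_sum (f := fun t => (u t - (1 - w) / r) ^ 2) (fun _ _ => sq_nonneg _)
        (Finset.mem_univ t)
    have h2 : 1 / (2 * (r : ℝ)) < (1 - w) / r - u t := by
      have h3 : 3 / (4 * (r : ℝ)) ≤ (1 - w) / r := by
        rw [div_le_div_iff₀ (by positivity) hr0]
        have := mul_le_mul_of_nonneg_right hw hr0.le
        linarith
      have h4 : 3 / (4 * (r : ℝ)) - 1 / (4 * (r : ℝ)) = 1 / (2 * (r : ℝ)) := by
        field_simp
        norm_num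
      linarith
    have h5 : (1 / (2 * (r : ℝ))) ^ 2 < ((1 - w) / r - u t) ^ 2 :=
      pow_lt_pow_left₀ h2 (by positivity) (by norm_num)
    have h6 : ((1 - w) / r - u t) ^ 2 = (u t - (1 - w) / r) ^ 2 := by ring
    have h7 : 2 * (m : ℝ) * (1 / (2 * (r : ℝ))) ^ 2 < C := by
      refine lt_of_lt_of_le ?_ hu
      have : (1 / (2 * (r : ℝ))) ^ 2 < ∑ t, (u t - (1 - w) / r) ^ 2 := by linarith
      exact mul_lt_mul_of_pos_left this (by positivity)
    have h8 : C ≤ 2 * (m : ℝ) * (1 / (2 * (r : ℝ))) ^ 2 := by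
      have e : 2 * (m : ℝ) * (1 / (2 * (r : ℝ))) ^ 2 = (m : ℝ) / (2 * (r : ℝ) ^ 2) := by
        field_simp
      rw [e, le_div_iff₀ (by positivity)]
      linarith
    linarith
  -- scaling
  obtain ⟨c, hc⟩ : ∃ c : ℝ, c = l / (2 * m) := ⟨_, rfl⟩
  have hc0 : 0 < c := by rw [hc]; positivity
  have hcl : c * (2 * m) = l := by rw [hc]; field_simp
  have hcl1 : c * l ≤ 1 := by
    have h1 : c * l * (2 * m) = l ^ 2 := by rw [mul_right_comm, hcl]; ring
    by_contra h2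
    push Not at h2
    have h3 : 1 * (2 * (m : ℝ)) < c * l * (2 * m) := mul_lt_mul_of_pos_right h2 (by positivity)
    linarith
  have hc4 : 4 * (m : ℝ) * c ^ 2 * m = l ^ 2 := by
    rw [← hcl]
    ring
  have hc41 : 1 ≤ 4 * (m : ℝ) * c ^ 2 := by
    by_contra h2
    push Not at h2
    have h3 : 4 * (m : ℝ) * c ^ 2 * m < 1 * m := mul_lt_mul_of_pos_right h2 hMpos
    linarith
  rw [← hc] at key1 nv kv
  have bnd : ∀ q : ℝ, 2 * (m : ℝ) * q ≤ C → q / c ^ 2 ≤ 2 * C := by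
    intro q hq
    rw [div_le_iff₀ (by positivity)]
    have h1 : C * 1 ≤ C * (4 * (m : ℝ) * c ^ 2) := mul_le_mul_of_nonneg_left hc41 (by linarith)
    have h2 : 2 * (m : ℝ) * q ≤ 2 * (m : ℝ) * (2 * C * c ^ 2) := by linarith
    exact le_of_mul_le_mul_left h2 (by positivity)
  have hlb := lowb (fun t => cw (fun i => x i ^ 2) f (some t)) (cw (fun i => x i ^ 2) f none)
    (hcwf.trans hγ1) kS
  obtain ⟨z, hz⟩ : ∃ z : V → ℝ, z = fun i => x i / Real.sqrt c := ⟨_, rfl⟩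
  have hsc : 0 < Real.sqrt c := Real.sqrt_pos.2 hc0
  have hz0 : ∀ i, 0 ≤ z i := fun i => by
    rw [hz]
    exact div_nonneg (hx0 i) hsc.le
  have hxz : ∀ i, x i = z i * Real.sqrt c := fun i => by
    rw [hz]
    field_simp
  have ev : ∑ i, ∑ j, adj G i j * (z i * z j - 1) ^ 2 = vE G x c / c ^ 2 := by
    rw [hz]
    exact sc_vE G x hc0
  have em : ∀ f : V → Option (Fin r),
      miss G (fun i => z i ^ 2) f = miss G (fun i => x i ^ 2) f / c ^ 2 := fun f => by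
    rw [hz]
    exact sc_miss G x f hc0
  have ec : ∀ (f : V → Option (Fin r)) (o : Option (Fin r)),
      cw (fun i => z i ^ 2) f o = cw (fun i => x i ^ 2) f o / c := fun f o => by
    rw [hz]
    exact sc_cw x f o hc0
  have hvz : vE G x c / c ^ 2 ≤ 2 * C := bnd _ kv
  have hmz : miss G (fun i => x i ^ 2) f / c ^ 2 ≤ 2 * C := bnd _ km
  have hz1 := hnrm V G z f hz0 (by rw [ev]; exact hvz) (by rw [em]; exact hmz)
    (by
      intro t
      rw [ec, le_div_iff₀ hc0]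
      have h1 := hlb t
      have h2 : Q0 * c ≤ 1 / (4 * (r : ℝ)) := by
        rw [le_div_iff₀ (by positivity)]
        have h3 : 4 * r * Q0 * c ≤ l * c := mul_le_mul_of_nonneg_right (hL2.trans hlL) hc0.le
        linarith
      exact h2.trans h1)
    (by
      rw [ec, div_le_iff₀ hc0]
      have h1 : C ≤ γ * δ ^ 2 * l :=
        hL1.trans (mul_le_mul_of_nonneg_left hlL (by positivity))
      have h2 : (2 * (m : ℝ) * γ) * cw (fun i => x i ^ 2) f none ≤
          (2 * (m : ℝ) * γ) * (δ ^ 2 * c) := by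
        have e : (2 * (m : ℝ) * γ) * (δ ^ 2 * c) = γ * δ ^ 2 * (c * (2 * m)) := by ring
        rw [e, hcl]
        linarith
      exact le_of_mul_le_mul_left h2 (by positivity))
  -- the new partition
  obtain ⟨g, hg⟩ : ∃ g : V → Option (Fin r), g = fun i => if |z i - 1| ≤ δ then f i else none :=
    ⟨_, rfl⟩
  have hg1 : ∀ i, g i ≠ none → g i = f i ∧ |z i - 1| ≤ δ := by
    intro i hi
    by_cases h : |z i - 1| ≤ δ
    · refine ⟨?_, h⟩
      rw [hg]
      exact if_pos h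
    · exfalso
      apply hi
      rw [hg]
      exact if_neg h
  have hg2 : ∀ i, g i = none → z i ≤ δ := by
    intro i hi
    rcases hz1 i with h | h
    · exfalso
      apply h.1
      rw [← hi, hg]
      exact (if_pos h.2).symm
    · exact h
  have hgI : Indep G g := by
    intro v w hv hvw
    have h1 := (hg1 v hv).1
    have h2 := (hg1 w (hvw ▸ hv)).1
    exact hI v w (h1 ▸ hv) (by rw [← h1, ← h2, hvw])
  have hzu : ∀ i, z i ≤ 11 / 10 := by
    intro i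
    by_cases h : g i = none
    · have := hg2 i h
      linarith
    · have := (abs_le.1 (hg1 i h).2).2
      linarith
  have hzl : ∀ i, g i ≠ none → 9 / 10 ≤ z i := by
    intro i h
    have := (abs_le.1 (hg1 i h).2).1
    linarith
  obtain ⟨hob, hmb⟩ := hV r δ V G z g hδ0 (by linarith) hz0 hg2 (fun i hi => (hg1 i hi).2)
  rw [ev] at hob
  rw [em] at hmb
  obtain ⟨b, hbdef⟩ : ∃ b : ℕ, b = (outSet G g).ncard := ⟨_, rfl⟩
  obtain ⟨a, hadef⟩ : ∃ a : ℕ, a = (missSet G g).ncard := ⟨_, rfl⟩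
  rw [← hbdef] at hob
  rw [← hadef] at hmb
  have hmz2 : miss G (fun i => x i ^ 2) g / c ^ 2 ≤ 2 * C := by
    refine le_trans ?_ hmz
    exact div_le_div_of_nonneg_right
      (miss_mono G _ f g hy0 fun i hi => (hg1 i hi).1) (by positivity)
  have hb0 : (0 : ℝ) ≤ (b : ℝ) := Nat.cast_nonneg b
  have ha0 : (0 : ℝ) ≤ (a : ℝ) := Nat.cast_nonneg a
  have hδ4 : 4 / 5 ≤ 1 - 4 * δ := by linarith
  have hb2 : (b : ℝ) ≤ 2 * C := by
    have h1 := mul_le_mul_of_nonneg_right hδ4 hb0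
    linarith
  have ha2 : (a : ℝ) ≤ 2 * C := by
    have h1 := mul_le_mul_of_nonneg_right hδ4 ha0
    linarith
  have hab : a + b ≤ ⌈4 * C⌉₊ := by
    have h1 : ((a + b : ℕ) : ℝ) ≤ (⌈4 * C⌉₊ : ℝ) := by
      push_cast
      have := Nat.le_ceil (4 * C)
      linarith
    exact_mod_cast h1
  -- the vertices outside
  have hxB : ∀ i, x i ≤ 11 / 10 * Real.sqrt c := fun i => by
    rw [hxz i]
    exact mul_le_mul_of_nonneg_right (hzu i) hsc.le
  obtain ⟨hyu1, hyu2⟩ := hY r V G x l m g (11 / 10 * Real.sqrt c) D hxB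
  have hB2 : (11 / 10 * Real.sqrt c) ^ 2 = 121 / 100 * c := by
    rw [mul_pow, Real.sq_sqrt hc0.le]
    norm_num
  rw [hB2, ← hbdef] at hyu1
  have ncg := cw_nonneg (fun i => x i ^ 2) g none hy0
  have hyU : cw (fun i => x i ^ 2) g none ≤ 1 / 10 := by
    have h1 : l * cw (fun i => x i ^ 2) g none ≤ l * (1 / 10) := by
      refine hyu1.trans ?_
      rw [← hcl]
      have h2 : 242 / 100 * (b : ℝ) ≤ 2 * m * (1 / 10) := by linarith
      have h3 := mul_le_mul_of_nonneg_right h2 hc0.le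
      linarith
    exact le_of_mul_le_mul_left h1 hlpos
  have hnbg : ∀ w, g w = none → nb G (fun i => x i ^ 2) w ≤ 1 - 1 / (r : ℝ) - 1 / 4 := by
    intro w hw
    have h1 := hyu2 w hw
    rw [hB2, ← hbdef] at h1
    have h2 : 242 * C * c ≤ l * c := mul_le_mul_of_nonneg_right (hL3.trans hlL) hc0.le
    have h3 : (b : ℝ) * c ≤ 2 * C * c := mul_le_mul_of_nonneg_right hb2 hc0.le
    linarith
  have key2 := hK r (1 / 4) V G x l m g (by omega) (by norm_num) D hgI hnbg (by linarith)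
  rw [← hc] at key2
  have nmg := miss_nonneg G (fun i => x i ^ 2) g hy0
  obtain ⟨S, hSdef⟩ : ∃ S : ℝ, S = ∑ t, (cw (fun i => x i ^ 2) g (some t) -
      (1 - cw (fun i => x i ^ 2) g none) / r) ^ 2 := ⟨_, rfl⟩
  have nSg : 0 ≤ S := by
    rw [hSdef]
    exact Finset.sum_nonneg fun _ _ => sq_nonneg _
  rw [← hSdef] at key2
  -- the sizes of the parts
  have kSg : 2 * (m : ℝ) * S ≤ C := by
    have h1 : 0 ≤ 2 * (m : ℝ) * (1 / 4 * cw (fun i => x i ^ 2) g none
      + miss G (fun i => x i ^ 2) g + vE G x c) := by positivity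
    linarith
  have hlbg := lowb (fun t => cw (fun i => x i ^ 2) g (some t)) (cw (fun i => x i ^ 2) g none)
    (by linarith) (by rw [← hSdef]; exact kSg)
  have hxB2 : ∀ i, (fun i => x i ^ 2) i ≤ 121 / 100 * c := fun i => by
    rw [← hB2]
    exact pow_le_pow_left₀ (hx0 i) (hxB i) 2
  have hsize : ∀ t, (s₁ : ℝ) + 1 ≤ ({i | g i = some t}.ncard : ℝ) := by
    intro t
    have h1 := hlbg t
    have h2 := cw_le (fun i => x i ^ 2) g t _ hxB2
    obtain ⟨n, hn⟩ : ∃ n : ℕ, n = {i | g i = some t}.ncard := ⟨_, rfl⟩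
    rw [← hn] at h2 ⊢
    have h3 : 1 / (4 * (r : ℝ)) ≤ (n : ℝ) * (121 / 100 * c) := h1.trans h2
    rw [div_le_iff₀ (by positivity)] at h3
    have hn0 : (0 : ℝ) ≤ (n : ℝ) := Nat.cast_nonneg n
    have h4 : 1 ≤ 5 * r * n * c := by linarith [mul_nonneg (mul_nonneg hn0 hr0.le) hc0.le]
    have h5 : 5 * r * ((s₁ : ℝ) + 1) * c ≤ 5 * r * n * c := by
      have h6 : 5 * r * ((s₁ : ℝ) + 1) * c ≤ l * c :=
        mul_le_mul_of_nonneg_right (hL4.trans hlL) hc0.le
      linarith [mul_comm l c]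
    have h6 : (5 * r * c) * ((s₁ : ℝ) + 1) ≤ (5 * r * c) * n := by linarith
    exact le_of_mul_le_mul_left h6 (by positivity)
  have hbal1 := hbal r V G x l m g hr D hm2 hlm hgI
    (by
      intro i hi
      rw [← hc, hxz i]
      exact mul_le_mul_of_nonneg_right (hzl i hi) hsc.le)
    (by
      intro i
      rw [← hc]
      exact hxB i)
    hyU
    (by
      intro t
      have h1 := hsize t
      by_contra hne
      push Not at hne
      have h2 : {i | g i = some t} = ∅ := by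
        ext i
        simp [hne i]
      rw [h2, Set.ncard_empty] at h1
      have : (0 : ℝ) ≤ (s₁ : ℝ) := Nat.cast_nonneg _
      push_cast at h1
      linarith)
    (by rw [← hadef, ← hbdef]; exact hab)
  refine ⟨g, hgI, ?_, ?_⟩
  · intro t
    have h1 := hsize t
    have h2 : (s₁ : ℝ) ≤ ({i | g i = some t}.ncard : ℝ) := by linarith
    exact_mod_cast h2
  · intro s t
    rw [← hadef, ← hbdef]
    -- the terms of the modified edges
    have t1 : 2 * (1 - 4 * δ) * b * c ^ 2 ≤ vE G x c := by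
      rwa [le_div_iff₀ (by positivity)] at hob
    have t2 : 2 * (1 - 4 * δ) * a * c ^ 2 ≤ miss G (fun i => x i ^ 2) g := by
      rwa [le_div_iff₀ (by positivity)] at hmb
    have t3 : 2 * (1 - 1 / (r : ℝ)) * ((a : ℝ) + b) - ε ≤
        2 * (m : ℝ) * (miss G (fun i => x i ^ 2) g + vE G x c) := by
      have u1 : 2 * (m : ℝ) * (2 * (1 - 4 * δ) * ((a : ℝ) + b) * c ^ 2) ≤
          2 * (m : ℝ) * (miss G (fun i => x i ^ 2) g + vE G x c) := by
        apply mul_le_mul_of_nonneg_left _ (by positivity)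
        linarith
      refine le_trans ?_ u1
      -- `4 m c ^ 2 ≥ 2 β - C / m`
      have u2 : 2 * (1 - 1 / (r : ℝ)) - C / m ≤ 4 * (m : ℝ) * c ^ 2 := by
        have v1 : (2 * (1 - 1 / (r : ℝ)) - C / m) * m ≤ 4 * (m : ℝ) * c ^ 2 * m := by
          rw [hc4]
          have : (2 * (1 - 1 / (r : ℝ)) - C / m) * m = 2 * (1 - 1 / (r : ℝ)) * m - C := by
            rw [sub_mul, div_mul_cancel₀ _ hMpos.ne']
          rw [this]
          exact hlC
        exact le_of_mul_le_mul_right v1 hMpos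
      have u3 : 0 ≤ (1 - 4 * δ) * ((a : ℝ) + b) := mul_nonneg (by linarith) (by linarith)
      have u4 := mul_le_mul_of_nonneg_left u2 u3
      have u5 : 2 * (m : ℝ) * (2 * (1 - 4 * δ) * ((a : ℝ) + b) * c ^ 2) =
          (1 - 4 * δ) * ((a : ℝ) + b) * (4 * (m : ℝ) * c ^ 2) := by ring
      rw [u5]
      refine le_trans ?_ u4
      obtain ⟨κ, hκ⟩ : ∃ κ : ℝ, κ = C / m := ⟨_, rfl⟩
      obtain ⟨n, hn⟩ : ∃ n : ℝ, n = (a : ℝ) + b := ⟨_, rfl⟩
      obtain ⟨β, hβ⟩ : ∃ β : ℝ, β = 1 - 1 / (r : ℝ) := ⟨_, rfl⟩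
      have hκ0 : 0 ≤ κ := by rw [hκ]; positivity
      have hκ1 : 8 * C * κ ≤ ε := by
        rw [hκ, ← mul_div_assoc, div_le_iff₀ hMpos]
        have : ε * Mm ≤ ε * m := mul_le_mul_of_nonneg_left hmM hε.le
        linarith
      have hn0 : 0 ≤ n := by rw [hn]; linarith
      have hn1 : n ≤ 4 * C := by rw [hn]; linarith
      rw [← hκ, ← hn, ← hβ]
      have hβ1' : β < 1 := by rw [hβ]; exact hβ1
      have hβ0' : 2 / 3 ≤ β := by rw [hβ]; exact hβ0
      have w1 : 8 * δ * β * n ≤ ε / 2 := by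
        have x1 : δ * β * n ≤ δ * 1 * (4 * C) := by
          apply mul_le_mul _ hn1 hn0 (by positivity)
          exact mul_le_mul_of_nonneg_left hβ1'.le hδ0.le
        linarith
      have w2 : κ * n ≤ ε / 2 := by
        have x1 : κ * n ≤ κ * (4 * C) := mul_le_mul_of_nonneg_left hn1 hκ0
        linarith
      have w3 : 0 ≤ 4 * δ * n * κ := by positivity
      have w4 : (1 - 4 * δ) * n * (2 * β - κ) =
          2 * β * n - 8 * δ * β * n - κ * n + 4 * δ * n * κ := by ring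
      rw [w4]
      linarith
    -- the sizes
    have t4 : (({i | g i = some s}.ncard : ℝ) - ({i | g i = some t}.ncard : ℝ)) ^ 2 / 10 ^ 6 ≤
        2 * (m : ℝ) * S := by
      by_cases hst : s = t
      · subst hst
        rw [sub_self]
        have : 0 ≤ 2 * (m : ℝ) * S := by positivity
        linarith
      · refine (hbal1 s t).trans ?_
        have h1 := two_sq (fun t => cw (fun i => x i ^ 2) g (some t))
          ((1 - cw (fun i => x i ^ 2) g none) / r) s t hst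
        rw [← hSdef] at h1
        have h2 := mul_le_mul_of_nonneg_left h1 hMpos.le
        linarith
    have t5 : 0 ≤ 2 * (m : ℝ) * (1 / 4 * cw (fun i => x i ^ 2) g none) := by positivity
    linarith

end MP0c3a8f
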