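import Pool.Agent.Work.MP_0c3a8f_co.Stmts

/-!
# MP_0c3a8f_co: classification of the types (0, r) and (1, r) (item TUC)
-/

open Finset

namespace MP0c3a8f

namespace TUC

/-- Coordinates in the parts. -/
lemma coords {V : Type} [Fintype V] {r s : ℕ} (f : V → Option (Fin r)) (q : Fin r → V)
    (hs : ∀ t, {v | f v = some t}.ncard = s) (hq : ∀ t, f (q t) = some t) (hr : 0 < r) :
    ∃ g : Fin r → V → Fin s,
      (∀ t v w, f v = some t → f w = some t → g t v = g t w → v = w) ∧
      (∀ t i, ∃ v, f v = some t ∧ g t v = i) ∧
      (∀ t v, f v = some t → ((g t v).val = 0 ↔ v = q t)) := by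
  classical
  have hs0 : 0 < s := by
    rw [← hs ⟨0, hr⟩, Set.ncard_pos]
    exact ⟨q ⟨0, hr⟩, hq _⟩
  have key : ∀ t : Fin r, ∃ g : V → Fin s,
      (∀ v w, f v = some t → f w = some t → g v = g w → v = w) ∧
      (∀ i, ∃ v, f v = some t ∧ g v = i) ∧
      (∀ v, f v = some t → ((g v).val = 0 ↔ v = q t)) := by
    intro t
    have hc : Fintype.card {v // f v = some t} = s := by
      rw [← hs t, ← Nat.card_coe_set_eq, Nat.card_eq_fintype_card]
      rfl
    set e0 := Fintype.equivFinOfCardEq hc with he0
    set e := e0.trans (Equiv.swap (e0 ⟨q t, hq t⟩) ⟨0, hs0⟩) with he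
    have heq : e ⟨q t, hq t⟩ = ⟨0, hs0⟩ := by
      rw [he, Equiv.trans_apply, Equiv.swap_apply_left]
    refine ⟨fun v => if h : f v = some t then e ⟨v, h⟩ else ⟨0, hs0⟩, ?_, ?_, ?_⟩
    · intro v w hv hw h
      simp only [dif_pos hv, dif_pos hw] at h
      have := e.injective h
      exact congrArg Subtype.val this
    · intro i
      refine ⟨(e.symm i).val, (e.symm i).2, ?_⟩
      simp only [dif_pos (e.symm i).2]
      exact e.apply_symm_apply i
    · intro v hv
      simp only [dif_pos hv]
      constructor
      · intro h
        have h1 : e ⟨v, hv⟩ = e ⟨q t, hq t⟩ := by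
          rw [heq]
          exact Fin.ext h
        exact congrArg Subtype.val (e.injective h1)
      · intro h
        subst h
        have : e ⟨q t, hv⟩ = ⟨0, hs0⟩ := heq
        rw [this]
  choose g hg using key
  exact ⟨g, fun t => (hg t).1, fun t => (hg t).2.1, fun t => (hg t).2.2⟩

/-- The identification. -/
def FF {V : Type} {r s : ℕ} (f : V → Option (Fin r)) (σ : Equiv.Perm (Fin r))
    (g : Fin r → V → Fin s) (v : V) : Option (Fin r × Fin s) :=
  match f v with
  | none => none
  | some t => some (σ t, g t v)

lemma FF_none {V : Type} {r s : ℕ} {f : V → Option (Fin r)} (σ : Equiv.Perm (Fin r))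
    (g : Fin r → V → Fin s) {v : V} (h : f v = none) : FF f σ g v = none := by
  unfold FF
  rw [h]

lemma FF_some {V : Type} {r s : ℕ} {f : V → Option (Fin r)} (σ : Equiv.Perm (Fin r))
    (g : Fin r → V → Fin s) {v : V} {t : Fin r} (h : f v = some t) :
    FF f σ g v = some (σ t, g t v) := by
  unfold FF
  rw [h]

lemma FF_bij {V : Type} {r s : ℕ} (f : V → Option (Fin r)) (σ : Equiv.Perm (Fin r))
    (g : Fin r → V → Fin s) (u : V) (hu : ∀ v, f v = none ↔ v = u)
    (h1 : ∀ t v w, f v = some t → f w = some t → g t v = g t w → v = w)
    (h2 : ∀ t i, ∃ v, f v = some t ∧ g t v = i) : Function.Bijective (FF f σ g) := by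
  constructor
  · intro v w h
    rcases hv : f v with _ | t
    · rcases hw : f w with _ | t'
      · rw [(hu v).1 hv, (hu w).1 hw]
      · rw [FF_none σ g hv, FF_some σ g hw] at h
        cases h
    · rcases hw : f w with _ | t'
      · rw [FF_some σ g hv, FF_none σ g hw] at h
        cases h
      · rw [FF_some σ g hv, FF_some σ g hw] at h
        simp only [Option.some.injEq, Prod.mk.injEq, EmbeddingLike.apply_eq_iff_eq] at h
        obtain ⟨h3, h4⟩ := h
        subst h3
        exact h1 t v w hv hw h4
  · intro p
    rcases p with _ | ⟨t', i⟩
    · exact ⟨u, FF_none σ g ((hu u).2 rfl)⟩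
    · obtain ⟨v, hv, hi⟩ := h2 (σ.symm t') i
      refine ⟨v, ?_⟩
      rw [FF_some σ g hv, hi, Equiv.apply_symm_apply]

end TUC

open TUC in
theorem prfTUC : CLS_statement → (TUC_statement ∧ TUMC_statement) := by
  intro hcls
  constructor
  · intro r s V _ G f hr hmod hcol hiso
    classical
    obtain ⟨u, q, hu, hq, hadj⟩ := hcls r s 0 V G f hr hmod hcol hiso
    obtain ⟨g, g1, g2, g3⟩ := coords f q hmod.size hq (by omega)
    have hmiss : missSet G f = ∅ := by
      have := hmod.miss
      rwa [Set.ncard_eq_zero (Set.toFinite _)] at this
    have hG : ∀ v w, f v ≠ none → f w ≠ none → (G.Adj v w ↔ f v ≠ f w) := by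
      intro v w hv hw
      constructor
      · intro h h'
        exact hmod.indep v w hv h' h
      · intro h
        by_contra h'
        have : s(v, w) ∈ missSet G f := ⟨v, w, rfl, hv, hw, h, h'⟩
        rw [hmiss] at this
        exact this
    refine ⟨⟨Equiv.ofBijective _ (FF_bij f (Equiv.refl _) g u hu g1 g2), ?_⟩⟩
    intro v w
    simp only [Equiv.ofBijective_apply, TU, SimpleGraph.fromRel_adj]
    rcases hv : f v with _ | a
    · rcases hw : f w with _ | b
      · rw [FF_none _ g hv, FF_none _ g hw]
        have e1 := (hu v).1 hv
        have e2 := (hu w).1 hw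
        subst e1
        subst e2
        simp
      · rw [FF_none _ g hv, FF_some _ g hw]
        have e1 := (hu v).1 hv
        subst e1
        rw [hadj]
        simp only [ne_eq, reduceCtorEq, not_false_eq_true, or_self, true_and, g3 b w hw]
        constructor
        · intro h
          exact ⟨b, h⟩
        · rintro ⟨t, ht⟩
          have : some b = some t := by rw [← hw, ht, hq]
          rw [Option.some.inj this]
          exact ht
    · rcases hw : f w with _ | b
      · rw [FF_some _ g hv, FF_none _ g hw]
        have e1 := (hu w).1 hw
        subst e1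
        rw [G.adj_comm, hadj]
        simp only [ne_eq, reduceCtorEq, not_false_eq_true, or_self, true_and, g3 a v hv]
        constructor
        · intro h
          exact ⟨a, h⟩
        · rintro ⟨t, ht⟩
          have : some a = some t := by rw [← hv, ht, hq]
          rw [Option.some.inj this]
          exact ht
      · rw [FF_some _ g hv, FF_some _ g hw, hG v w (by rw [hv]; simp) (by rw [hw]; simp), hv, hw]
        simp only [Equiv.refl_apply, ne_eq, Option.some.injEq, Prod.mk.injEq]
        constructor
        · rintro ⟨-, h | h⟩
          · exact h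
          · exact fun h' => h h'.symm
        · intro h
          exact ⟨fun h' => h h'.1, Or.inl h⟩
  · intro r s V _ G f hr hmod hcol hiso hfree
    classical
    obtain ⟨u, q, hu, hq, hadj⟩ := hcls r s 1 V G f hr hmod hcol hiso
    obtain ⟨g, g1, g2, g3⟩ := coords f q hmod.size hq (by omega)
    have hqi : ∀ a b, q a = q b → a = b := by
      intro a b h
      have : some a = some b := by rw [← hq a, h, hq b]
      exact Option.some.inj this
    -- a missing pair
    have hex : ∃ t t', t ≠ t' ∧ ¬ G.Adj (q t) (q t') := by
      by_contra hcon
      push Not at hcon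
      apply hfree
      have hhom : ∀ i j : Fin (r + 1), i ≠ j →
          G.Adj ((Fin.cons u q : Fin (r + 1) → V) i) ((Fin.cons u q : Fin (r + 1) → V) j) := by
        intro i j hij
        refine Fin.cases ?_ (fun i' => ?_) i (motive := fun i => i ≠ j →
          G.Adj ((Fin.cons u q : Fin (r + 1) → V) i) ((Fin.cons u q : Fin (r + 1) → V) j)) hij
        · intro hj
          refine Fin.cases (fun h => absurd rfl h) (fun j' _ => ?_) j (motive := fun j => 0 ≠ j →
            G.Adj ((Fin.cons u q : Fin (r + 1) → V) 0) ((Fin.cons u q : Fin (r + 1) → V) j)) hj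
          rw [Fin.cons_zero, Fin.cons_succ]
          exact (hadj _).2 ⟨j', rfl⟩
        · intro hj
          refine Fin.cases (fun _ => ?_) (fun j' h => ?_) j (motive := fun j => i'.succ ≠ j →
            G.Adj ((Fin.cons u q : Fin (r + 1) → V) i'.succ)
              ((Fin.cons u q : Fin (r + 1) → V) j)) hj
          · rw [Fin.cons_zero, Fin.cons_succ]
            exact ((hadj _).2 ⟨i', rfl⟩).symm
          · rw [Fin.cons_succ, Fin.cons_succ]
            exact hcon i' j' (fun h' => h (by rw [h']))
      let φ : (⊤ : SimpleGraph (Fin (r + 1))) →g G :=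
        { toFun := (Fin.cons u q : Fin (r + 1) → V)
          map_rel' := fun {i j} h => hhom i j (by simpa using h) }
      refine ⟨φ.toCopy ?_⟩
      intro i j hij
      by_contra hne
      have h1 := hhom i j hne
      have h2 : (Fin.cons u q : Fin (r + 1) → V) i = (Fin.cons u q : Fin (r + 1) → V) j := hij
      rw [h2] at h1
      exact G.loopless.irrefl _ h1
    obtain ⟨t, t', htt, hnadj⟩ := hex
    have hmiss : missSet G f = {s(q t, q t')} := by
      have h1 := hmod.miss
      rw [Set.ncard_eq_one] at h1
      obtain ⟨e, he⟩ := h1
      have h2 : s(q t, q t') ∈ missSet G f :=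
        ⟨q t, q t', rfl, by rw [hq]; simp, by rw [hq]; simp, by rw [hq, hq]; simpa using htt, hnadj⟩
      rw [he, Set.mem_singleton_iff] at h2
      rw [he, h2]
    have hG : ∀ v w, f v ≠ none → f w ≠ none →
        (G.Adj v w ↔ f v ≠ f w ∧ s(v, w) ≠ s(q t, q t')) := by
      intro v w hv hw
      constructor
      · intro h
        refine ⟨fun h' => hmod.indep v w hv h' h, fun h' => hnadj ?_⟩
        rw [Sym2.eq_iff] at h'
        rcases h' with ⟨h1, h2⟩ | ⟨h1, h2⟩
        · rw [← h1, ← h2]
          exact h
        · rw [← h1, ← h2]
          exact h.symm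
      · rintro ⟨h, h3⟩
        by_contra h'
        have : s(v, w) ∈ missSet G f := ⟨v, w, rfl, hv, hw, h, h'⟩
        rw [hmiss, Set.mem_singleton_iff] at this
        exact h3 this
    -- the permutation
    have hσ : ∃ σ : Equiv.Perm (Fin r), (σ t).val = 0 ∧ (σ t').val = 1 := by
      refine ⟨(Equiv.swap t ⟨0, by omega⟩).trans
        (Equiv.swap ((Equiv.swap t ⟨0, by omega⟩) t') ⟨1, by omega⟩), ?_, ?_⟩
      · have h1 : (Equiv.swap t (⟨0, by omega⟩ : Fin r)) t' ≠ ⟨0, by omega⟩ := by
          intro h
          have h2 := Equiv.swap_apply_left t (⟨0, by omega⟩ : Fin r)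
          exact htt ((Equiv.swap t (⟨0, by omega⟩ : Fin r)).injective (h2.trans h.symm))
        rw [Equiv.trans_apply, Equiv.swap_apply_left,
          Equiv.swap_apply_of_ne_of_ne h1.symm (by simp [Fin.ext_iff])]
      · rw [Equiv.trans_apply, Equiv.swap_apply_left]
    obtain ⟨σ, hσ0, hσ1⟩ := hσ
    have hσle : ∀ a, (σ a).val ≤ 1 ↔ a = t ∨ a = t' := by
      intro a
      constructor
      · intro h
        have : (σ a).val = 0 ∨ (σ a).val = 1 := by omega
        rcases this with h1 | h1
        · exact Or.inl (σ.injective (Fin.ext (h1.trans hσ0.symm)))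
        · exact Or.inr (σ.injective (Fin.ext (h1.trans hσ1.symm)))
      · rintro (rfl | rfl)
        · omega
        · omega
    refine ⟨⟨Equiv.ofBijective _ (FF_bij f σ g u hu g1 g2), ?_⟩⟩
    intro v w
    simp only [Equiv.ofBijective_apply, TUM, SimpleGraph.fromRel_adj]
    rcases hv : f v with _ | a
    · rcases hw : f w with _ | b
      · rw [FF_none _ g hv, FF_none _ g hw]
        have e1 := (hu v).1 hv
        have e2 := (hu w).1 hw
        subst e1
        subst e2
        simp
      · rw [FF_none _ g hv, FF_some _ g hw]
        have e1 := (hu v).1 hv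
        subst e1
        rw [hadj]
        simp only [ne_eq, reduceCtorEq, not_false_eq_true, or_self, true_and, g3 b w hw]
        constructor
        · intro h
          exact ⟨b, h⟩
        · rintro ⟨t, ht⟩
          have : some b = some t := by rw [← hw, ht, hq]
          rw [Option.some.inj this]
          exact ht
    · rcases hw : f w with _ | b
      · rw [FF_some _ g hv, FF_none _ g hw]
        have e1 := (hu w).1 hw
        subst e1
        rw [G.adj_comm, hadj]
        simp only [ne_eq, reduceCtorEq, not_false_eq_true, or_self, true_and, g3 a v hv]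
        constructor
        · intro h
          exact ⟨a, h⟩
        · rintro ⟨t, ht⟩
          have : some a = some t := by rw [← hv, ht, hq]
          rw [Option.some.inj this]
          exact ht
      · rw [FF_some _ g hv, FF_some _ g hw, hG v w (by rw [hv]; simp) (by rw [hw]; simp), hv, hw]
        simp only [ne_eq, Option.some.injEq, Prod.mk.injEq, g3 a v hv, g3 b w hw,
          EmbeddingLike.apply_eq_iff_eq, hσle]
        by_cases hab : a = b
        · subst hab
          simp
        · have hba : ¬ b = a := fun h => hab h.symm
          simp only [hab, hba, false_and, not_false_eq_true, true_and]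
          have key : (v = q a ∧ w = q b ∧ (a = t ∨ a = t') ∧ (b = t ∨ b = t')) ↔
              s(v, w) = s(q t, q t') := by
            rw [Sym2.eq_iff]
            constructor
            · rintro ⟨h1, h2, h3 | h3, h4 | h4⟩
              · exact absurd (h3.trans h4.symm) hab
              · subst h3
                subst h4
                exact Or.inl ⟨h1, h2⟩
              · subst h3
                subst h4
                exact Or.inr ⟨h1, h2⟩
              · exact absurd (h3.trans h4.symm) hab
            · rintro (⟨h1, h2⟩ | ⟨h1, h2⟩)
              · have ea : a = t := by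
                  have : some a = some t := by rw [← hv, h1, hq]
                  exact Option.some.inj this
                have eb : b = t' := by
                  have : some b = some t' := by rw [← hw, h2, hq]
                  exact Option.some.inj this
                subst ea
                subst eb
                exact ⟨h1, h2, Or.inl rfl, Or.inr rfl⟩
              · have ea : a = t' := by
                  have : some a = some t' := by rw [← hv, h1, hq]
                  exact Option.some.inj this
                have eb : b = t := by
                  have : some b = some t := by rw [← hw, h2, hq]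
                  exact Option.some.inj this
                subst ea
                subst eb
                exact ⟨h1, h2, Or.inr rfl, Or.inl rfl⟩
          rw [← key]
          constructor
          · rintro (h | h)
            · exact h
            · exact fun ⟨h1, h2, h3, h4⟩ => h ⟨h2, h1, h4, h3⟩
          · intro h
            exact Or.inl h

end MP0c3a8f
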