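import Pool.Agent.Work.MP_0c3a8f_co.Stmts

open Finset

namespace MP0c3a8f

theorem TUP_ss (r s : ℕ) (p q : Fin r × Fin s) :
    (TU r s).Adj (some p) (some q) ↔ p.1 ≠ q.1 := by
  unfold TU
  rw [SimpleGraph.fromRel_adj]
  constructor
  · rintro ⟨-, h | h⟩
    · exact h
    · exact h.symm
  · intro h
    refine ⟨fun e => h ?_, Or.inl h⟩
    rw [Option.some.inj e]

theorem TUP_ns (r s : ℕ) (q : Fin r × Fin s) :
    (TU r s).Adj none (some q) ↔ q.2.val = 0 := by
  unfold TU
  rw [SimpleGraph.fromRel_adj]
  constructor
  · rintro ⟨-, h | h⟩
    · exact h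
    · exact h
  · intro h
    exact ⟨by simp, Or.inl h⟩

theorem TUP_mss (r s : ℕ) (p q : Fin r × Fin s) :
    (TUM r s).Adj (some p) (some q) ↔
      p.1 ≠ q.1 ∧ ¬ (p.2.val = 0 ∧ q.2.val = 0 ∧ p.1.val ≤ 1 ∧ q.1.val ≤ 1) := by
  unfold TUM
  rw [SimpleGraph.fromRel_adj]
  constructor
  · rintro ⟨-, h | h⟩
    · exact h
    · exact ⟨h.1.symm, fun h' => h.2 ⟨h'.2.1, h'.1, h'.2.2.2, h'.2.2.1⟩⟩
  · intro h
    refine ⟨fun e => h.1 ?_, Or.inl h⟩
    rw [Option.some.inj e]

theorem TUP_mns (r s : ℕ) (q : Fin r × Fin s) :
    (TUM r s).Adj none (some q) ↔ q.2.val = 0 := by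
  unfold TUM
  rw [SimpleGraph.fromRel_adj]
  constructor
  · rintro ⟨-, h | h⟩
    · exact h
    · exact h
  · intro h
    exact ⟨by simp, Or.inl h⟩

/-- the parts -/
def TUP_f (r s : ℕ) : Option (Fin r × Fin s) → Option (Fin r) := Option.map Prod.fst

theorem TUP_size (r s : ℕ) (t : Fin r) : {v | TUP_f r s v = some t}.ncard = s := by
  have h : {v | TUP_f r s v = some t} = Set.range fun j : Fin s => some (t, j) := by
    ext v
    constructor
    · intro hv
      cases v with
      | none => exact absurd hv (by simp [TUP_f])
      | some p =>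
        obtain ⟨a, j⟩ := p
        have : a = t := by simpa [TUP_f] using hv
        exact ⟨j, by rw [this]⟩
    · rintro ⟨j, rfl⟩
      rfl
  rw [h, ← Set.image_univ, Set.ncard_image_of_injective, Set.ncard_univ, Nat.card_fin]
  intro j j' h
  simpa using h

theorem TUP_mod (r s a : ℕ) (hs : 1 ≤ s) (H : SimpleGraph (Option (Fin r × Fin s)))
    (hn : ∀ q, H.Adj none (some q) ↔ q.2.val = 0)
    (hi : ∀ p q, H.Adj (some p) (some q) → p.1 ≠ q.1)
    (hm : (missSet H (TUP_f r s)).ncard = a) : IsMod r s a r H (TUP_f r s) := by
  refine ⟨TUP_size r s, ?_, hm, ?_⟩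
  · intro v w hv hvw hadj
    cases v with
    | none => exact hv rfl
    | some p =>
      cases w with
      | none => simp [TUP_f] at hvw
      | some q =>
        exact hi p q hadj (by simpa [TUP_f] using hvw)
  · have h : outSet H (TUP_f r s) =
        Set.range fun t : Fin r => s(none, some (t, (⟨0, by omega⟩ : Fin s))) := by
      ext e
      induction e using Sym2.ind with
      | _ v w =>
        constructor
        · rintro ⟨hadj, x, hx, hfx⟩
          have hx0 : x = none := by
            cases x with
            | none => rfl
            | some p => simp [TUP_f] at hfx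
          subst hx0
          have hadj' : H.Adj v w := hadj
          rcases Sym2.mem_iff.1 hx with h | h
          · subst h
            cases w with
            | none => exact absurd hadj' (H.loopless.irrefl _)
            | some q =>
              refine ⟨q.1, ?_⟩
              have h0 := (hn q).1 hadj'
              have : q = (q.1, (⟨0, by omega⟩ : Fin s)) := Prod.ext rfl (Fin.ext h0)
              show s(none, some (q.1, (⟨0, by omega⟩ : Fin s))) = _
              rw [← this]
          · subst h
            cases v with
            | none => exact absurd hadj' (H.loopless.irrefl _)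
            | some q =>
              refine ⟨q.1, ?_⟩
              have h0 := (hn q).1 hadj'.symm
              have : q = (q.1, (⟨0, by omega⟩ : Fin s)) := Prod.ext rfl (Fin.ext h0)
              show s(none, some (q.1, (⟨0, by omega⟩ : Fin s))) = _
              rw [← this]
              exact Sym2.eq_swap
        · rintro ⟨t, ht⟩
          rw [← ht]
          exact ⟨(hn _).2 rfl, none, Sym2.mem_mk_left _ _, rfl⟩
    rw [h, ← Set.image_univ, Set.ncard_image_of_injective, Set.ncard_univ, Nat.card_fin]
    intro t t' h
    simpa using h

theorem TUP_clique (r s : ℕ) (hs : 1 ≤ s) :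
    ∃ φ : Fin (r + 1) → Option (Fin r × Fin s), ∀ i j, i ≠ j → (TU r s).Adj (φ i) (φ j) := by
  refine ⟨Fin.cons none fun t => some (t, ⟨0, by omega⟩), ?_⟩
  intro i j hij
  induction i using Fin.cases with
  | zero =>
    induction j using Fin.cases with
    | zero => exact absurd rfl hij
    | succ j' =>
      rw [Fin.cons_zero, Fin.cons_succ]
      exact (TUP_ns r s _).2 rfl
  | succ i' =>
    induction j using Fin.cases with
    | zero =>
      rw [Fin.cons_zero, Fin.cons_succ]
      exact ((TUP_ns r s _).2 rfl).symm
    | succ j' =>
      rw [Fin.cons_succ, Fin.cons_succ]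
      exact (TUP_ss r s _ _).2 fun e => hij (by rw [show i' = j' from e])

theorem prfTUP : CNT_statement → (TUP_statement ∧ TUMP_statement) := by
  intro _
  constructor
  · intro r s hr hs
    refine ⟨⟨TUP_f r s, TUP_mod r s 0 hs _ (TUP_ns r s)
      (fun p q h => (TUP_ss r s p q).1 h) ?_⟩, ?_, ?_, ?_⟩
    · have h : missSet (TU r s) (TUP_f r s) = ∅ := by
        rw [Set.eq_empty_iff_forall_notMem]
        rintro e ⟨v, w, -, hv, hw, hvw, hadj⟩
        cases v with
        | none => exact hv rfl
        | some p =>
          cases w with
          | none => exact hw rfl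
          | some q =>
            apply hadj
            rw [TUP_ss]
            intro e
            apply hvw
            simp [TUP_f, e]
      rw [h, Set.ncard_empty]
    · rintro ⟨c⟩
      obtain ⟨φ, hφ⟩ := TUP_clique r s hs
      have hinj : Function.Injective fun i => c (φ i) := by
        intro i j h
        by_contra hij
        exact c.valid (hφ i j hij) h
      have := Fintype.card_le_of_injective _ hinj
      simp at this
    · intro v
      cases v with
      | none => exact ⟨some (⟨0, by omega⟩, ⟨0, by omega⟩), (TUP_ns r s _).2 rfl⟩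
      | some p =>
        by_cases h : p.1.val = 0
        · refine ⟨some (⟨1, by omega⟩, p.2), (TUP_ss r s _ _).2 fun e => ?_⟩
          rw [e] at h
          simp at h
        · refine ⟨some (⟨0, by omega⟩, p.2), (TUP_ss r s _ _).2 fun e => ?_⟩
          rw [e] at h
          simp at h
    · intro hfree
      obtain ⟨φ, hφ⟩ := TUP_clique r s hs
      refine hfree ⟨⟨⟨φ, fun {i j} hij => hφ i j hij⟩, ?_⟩⟩
      intro i j h
      by_contra hij
      exact (hφ i j hij).ne h
  · intro r s hr hs
    refine ⟨⟨TUP_f r s, TUP_mod r s 1 (by omega) _ (TUP_mns r s)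
      (fun p q h => ((TUP_mss r s p q).1 h).1) ?_⟩, ?_, ?_, ?_⟩
    · have h : missSet (TUM r s) (TUP_f r s) =
          {s(some ((⟨0, by omega⟩ : Fin r), (⟨0, by omega⟩ : Fin s)),
            some ((⟨1, by omega⟩ : Fin r), (⟨0, by omega⟩ : Fin s)))} := by
        ext e
        constructor
        · rintro ⟨v, w, rfl, hv, hw, hvw, hadj⟩
          cases v with
          | none => exact absurd rfl hv
          | some p =>
            cases w with
            | none => exact absurd rfl hw
            | some q =>
              have hpq : p.1 ≠ q.1 := by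
                intro e
                apply hvw
                simp [TUP_f, e]
              have h0 : p.2.val = 0 ∧ q.2.val = 0 ∧ p.1.val ≤ 1 ∧ q.1.val ≤ 1 := by
                by_contra hcon
                exact hadj ((TUP_mss r s p q).2 ⟨hpq, hcon⟩)
              obtain ⟨a1, a2, a3, a4⟩ := h0
              have hpq' : p.1.val ≠ q.1.val := fun e => hpq (Fin.ext e)
              rw [Set.mem_singleton_iff]
              rcases Nat.lt_or_ge p.1.val 1 with h | h
              · have hp : p = ((⟨0, by omega⟩ : Fin r), (⟨0, by omega⟩ : Fin s)) :=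
                  Prod.ext (Fin.ext (by simp only; omega)) (Fin.ext a1)
                have hq : q = ((⟨1, by omega⟩ : Fin r), (⟨0, by omega⟩ : Fin s)) :=
                  Prod.ext (Fin.ext (by simp only; omega)) (Fin.ext a2)
                rw [← hp, ← hq]
              · have hp : p = ((⟨1, by omega⟩ : Fin r), (⟨0, by omega⟩ : Fin s)) :=
                  Prod.ext (Fin.ext (by simp only; omega)) (Fin.ext a1)
                have hq : q = ((⟨0, by omega⟩ : Fin r), (⟨0, by omega⟩ : Fin s)) :=
                  Prod.ext (Fin.ext (by simp only; omega)) (Fin.ext a2)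
                rw [← hp, ← hq]
                exact Sym2.eq_swap
        · intro he
          rw [Set.mem_singleton_iff] at he
          refine ⟨_, _, he, by simp [TUP_f], by simp [TUP_f], by simp [TUP_f], ?_⟩
          rw [TUP_mss]
          simp
      rw [h, Set.ncard_singleton]
    · rintro ⟨c⟩
      have hinj : Function.Injective fun t : Fin r => c (some (t, (⟨1, by omega⟩ : Fin s))) := by
        intro t t' h
        by_contra hne
        refine c.valid ((TUP_mss r s _ _).2 ⟨hne, ?_⟩) h
        simp
      have hsurj := Finite.injective_iff_surjective.1 hinj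
      have h0 : ∀ t : Fin r, c (some (t, (⟨0, by omega⟩ : Fin s))) =
          c (some (t, (⟨1, by omega⟩ : Fin s))) := by
        intro t
        obtain ⟨t', ht'⟩ := hsurj (c (some (t, (⟨0, by omega⟩ : Fin s))))
        by_cases e : t' = t
        · rw [← ht', e]
        · exfalso
          refine c.valid ((TUP_mss r s (t, (⟨0, by omega⟩ : Fin s))
            (t', (⟨1, by omega⟩ : Fin s))).2 ⟨fun h => e h.symm, ?_⟩) ht'.symm
          simp
      obtain ⟨t, ht⟩ := hsurj (c none)
      refine c.valid ((TUP_mns r s (t, (⟨0, by omega⟩ : Fin s))).2 rfl) ?_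
      rw [h0 t]
      exact ht.symm
    · intro v
      cases v with
      | none => exact ⟨some (⟨0, by omega⟩, ⟨0, by omega⟩), (TUP_mns r s _).2 rfl⟩
      | some p =>
        by_cases h : p.1.val ≤ 1
        · refine ⟨some (⟨2, by omega⟩, p.2), (TUP_mss r s _ _).2 ⟨fun e => ?_, ?_⟩⟩
          · rw [e] at h
            simp at h
          · simp
        · refine ⟨some (⟨0, by omega⟩, p.2), (TUP_mss r s _ _).2 ⟨fun e => ?_, ?_⟩⟩
          · rw [e] at h
            simp at h
          · intro h'
            exact h h'.2.2.1
    · rintro ⟨φ⟩
      have hadj : ∀ i j, i ≠ j → (TUM r s).Adj (φ i) (φ j) := fun i j hij =>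
        φ.toHom.map_adj hij
      by_cases hall : ∃ i, φ i = none
      · obtain ⟨i0, hi0⟩ := hall
        have hk : ∀ k : Fin r, ∃ t : Fin r, φ (i0.succAbove k) =
            some (t, (⟨0, by omega⟩ : Fin s)) := by
          intro k
          have h1 := hadj i0 (i0.succAbove k) (Fin.succAbove_ne i0 k).symm
          rw [hi0] at h1
          cases hq : φ (i0.succAbove k) with
          | none =>
            rw [hq] at h1
            exact absurd h1 ((TUM r s).loopless.irrefl _)
          | some q =>
            rw [hq, TUP_mns] at h1
            exact ⟨q.1, congrArg some (Prod.ext rfl (Fin.ext h1))⟩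
        choose g hg using hk
        have hginj : Function.Injective g := by
          intro k k' h
          have h1 : φ (i0.succAbove k) = φ (i0.succAbove k') := by rw [hg, hg, h]
          exact Fin.succAbove_right_injective (φ.injective h1)
        have hgs := Finite.injective_iff_surjective.1 hginj
        obtain ⟨k0, hk0⟩ := hgs ⟨0, by omega⟩
        obtain ⟨k1, hk1⟩ := hgs ⟨1, by omega⟩
        have hne : k0 ≠ k1 := by
          intro e
          rw [e, hk1] at hk0
          simp at hk0
        have h1 := hadj (i0.succAbove k0) (i0.succAbove k1)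
          fun e => hne (Fin.succAbove_right_injective e)
        rw [hg, hg, hk0, hk1, TUP_mss] at h1
        exact h1.2 ⟨rfl, rfl, by simp, by simp⟩
      · push Not at hall
        have hp : ∀ i, ∃ p, φ i = some p := fun i => Option.ne_none_iff_exists'.1 (hall i)
        choose p hp using hp
        have hinj : Function.Injective fun i => (p i).1 := by
          intro i j h
          by_contra hij
          have h1 := hadj i j hij
          rw [hp, hp, TUP_mss] at h1
          exact h1.1 h
        have := Fintype.card_le_of_injective _ hinj
        simp at this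

end MP0c3a8f
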