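import Pool.Agent.Work.MP_0c3a8f_co.Stmts

open Finset

namespace MP0c3a8f

/-- `G` has maximal spectral radius in `N_r(m, F)` -/
def IsMaximiser {V W : Type} [Fintype V] (r m : ℕ) (F : SimpleGraph W) (G : SimpleGraph V) :
    Prop :=
  InN r m F G ∧ ∀ (U : Type) [Fintype U] (H : SimpleGraph U), InN r m F H → lam H ≤ lam G

/-- the structure of the graphs in `N_r(m, F)` with spectral radius close to the bound -/
def PartA {W : Type} (r : ℕ) (F : SimpleGraph W) : Prop :=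
  ∀ (C ε : ℝ) (s₁ : ℕ), 0 < ε → ∃ m₀ : ℕ, ∀ m ≥ m₀, ∀ (V : Type) [Fintype V]
    (G : SimpleGraph V), InN r m F G → 2 * (1 - 1 / (r : ℝ)) * m - C ≤ lam G ^ 2 →
    ∃ f : V → Option (Fin r), Indep G f ∧ (∀ t, s₁ ≤ {v | f v = some t}.ncard) ∧
      ∀ s t, 2 * (1 - 1 / (r : ℝ)) * ((missSet G f).ncard + (outSet G f).ncard)
        + (({v | f v = some s}.ncard : ℝ) - ({v | f v = some t}.ncard : ℝ)) ^ 2 / 10 ^ 6
        ≤ 2 * (1 - 1 / (r : ℝ)) * m - lam G ^ 2 + ε

/-- `λ(G)² ≤ 2(1-1/r)(m-c) + o(1)` on `N_r(m, F)` -/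
def Upper {W : Type} (r : ℕ) (F : SimpleGraph W) (c : ℕ) : Prop :=
  ∀ ε > (0 : ℝ), ∃ m₀ : ℕ, ∀ m ≥ m₀, ∀ (V : Type) [Fintype V] (G : SimpleGraph V),
    InN r m F G → lam G ^ 2 ≤ 2 * (1 - 1 / (r : ℝ)) * ((m : ℝ) - c) + ε

/-- the maximisers for `m = C(r,2) s² + b - a` -/
def PartB {W : Type} (r : ℕ) (F : SimpleGraph W) : Prop :=
  ∃ a b s₀ : ℕ, r ≤ b ∧ Upper r F (a + b) ∧
    ∀ s ≥ s₀, ∀ m, m + a = r.choose 2 * s ^ 2 + b →
      (∃ (k : ℕ) (G : SimpleGraph (Fin k)), IsMaximiser r m F G) ∧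
      ∀ (V : Type) [Fintype V] (G : SimpleGraph V), IsMaximiser r m F G →
        2 * (1 - 1 / (r : ℝ)) * ((m : ℝ) - (a + b : ℕ)) ≤ lam G ^ 2 ∧ ∃ f, IsMod r s a b G f

/-- `H` is the unique maximiser -/
def Unique {U W : Type} [Fintype U] (r m : ℕ) (F : SimpleGraph W) (H : SimpleGraph U) : Prop :=
  IsMaximiser r m F H ∧
    ∀ (V : Type) [Fintype V] (G : SimpleGraph V), IsMaximiser r m F G → Nonempty (G ≃g H)

theorem nonempty_of_not_colorable {V : Type} {r : ℕ} {G : SimpleGraph V}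
    (h : ¬ G.Colorable r) : Nonempty V := by
  by_contra hne
  rw [not_nonempty_iff] at hne
  exact h ⟨SimpleGraph.Coloring.mk (fun v => hne.elim v) (fun {v} => hne.elim v)⟩

theorem real_of (hRed : RED_statement) {W : Type} [Fintype W] (F : SimpleGraph W) (r a b : ℕ)
    (hr : 3 ≤ r) (s₁ : ℕ)
    (h : ∀ s ≥ s₁, ∃ (V : Type) (_ : Fintype V) (G : SimpleGraph V) (f : V → Option (Fin r)),
      IsMod r s a b G f ∧ F.Free G ∧ ¬ G.Colorable r ∧ ∀ v, ∃ w, G.Adj v w) :
    Real r F a b := by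
  intro s₀
  obtain ⟨V, _, G, f, h1, h2, h3, h4⟩ := h (s₀ + s₁ + 2 * (a + b) + 1) (by omega)
  refine ⟨s₀ + s₁ + 2 * (a + b) + 1, by omega, ?_⟩
  have := hRed W F r (s₀ + s₁ + 2 * (a + b) + 1) V G f hr h1.indep
    (by rw [h1.miss, h1.outer]; omega) (by intro t; rw [h1.size]) h2 h3 h4
  rw [h1.miss, h1.outer] at this
  exact this

/-- uniqueness from the final lemma -/
theorem unique_of (hP : P_statement) (hIso : ISO_statement) (hCnt : CNT_statement)
    (hLow : LOW_statement) {W : Type} [Fintype W]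
    (F : SimpleGraph W) (r a b m s : ℕ) (hr : 3 ≤ r) (hs : 1 ≤ s)
    (hm : m + a = r.choose 2 * s ^ 2 + b)
    (hfin : ∀ (V : Type) [Fintype V] (G : SimpleGraph V), InN r m F G →
        2 * (1 - 1 / (r : ℝ)) * ((m : ℝ) - a - b) ≤ lam G ^ 2 → ∃ f, IsMod r s a b G f)
    {U : Type} [Fintype U] (H : SimpleGraph U) (hH : ∃ f, IsMod r s a b H f)
    (hfree : F.Free H) (hcol : ¬ H.Colorable r) (hiso : ∀ v, ∃ w, H.Adj v w)
    (hcls : ∀ (V : Type) [Fintype V] (G : SimpleGraph V) (f : V → Option (Fin r)),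
      IsMod r s a b G f → ¬ G.Colorable r → (∀ v, ∃ w, G.Adj v w) → F.Free G →
      Nonempty (G ≃g H)) : Unique r m F H := by
  obtain ⟨f, hf⟩ := hH
  have h1 := hCnt r s a b U H f hf
  have h2 : H.edgeSet.ncard = m := by omega
  have h3 : InN r m F H := ⟨hfree, h2, hiso, hcol⟩
  have h4 := hLow r s a b U H f (by omega) hs hf
  rw [h2] at h4
  have := nonempty_of_not_colorable hcol
  have h5 : 0 ≤ lam H := (hP U H).1
  have h6 : ∀ (V : Type) [Fintype V] (G : SimpleGraph V), InN r m F G → lam H ≤ lam G →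
      Nonempty (G ≃g H) := by
    intro V _ G hG hle
    have h7 : lam H ^ 2 ≤ lam G ^ 2 := pow_le_pow_left₀ h5 hle 2
    obtain ⟨g, hg⟩ := hfin V G hG (h4.trans h7)
    exact hcls V G g hg hG.notPartite hG.noIso hG.free
  refine ⟨⟨h3, ?_⟩, ?_⟩
  · intro V _ G hG
    by_contra hlt
    push Not at hlt
    have := hIso V U G H (h6 V G hG hlt.le)
    linarith
  · intro V _ G hG
    exact h6 V G hG.1 (hG.2 U H h3)

theorem main (hP : P_statement) (hIso : ISO_statement) (hCrt : CRT_statement)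
    (hKcc : KCC_statement) (hStr : STR_statement) (hRed : RED_statement) (hNon : NON_statement)
    (hTyp : TYP_statement) (hCnt : CNT_statement) (hLow : LOW_statement)
    (hMax : MAXE_statement) (hTuc : TUC_statement) (hTumc : TUMC_statement)
    (hTup : TUP_statement) (hTump : TUMP_statement) (hFin : FINL_statement) :
    (∀ (W : Type) [Fintype W] (F : SimpleGraph W) (r : ℕ), 3 ≤ r → F.chromaticNumber = r + 1 →
      ColorCritical F →
      PartA r F ∧ PartB r F ∧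
      ((∀ s, F.Free (TU r s)) → Upper r F r ∧
        ∃ s₀ : ℕ, ∀ s ≥ s₀, Unique r (r.choose 2 * s ^ 2 + r) F (TU r s))) ∧
    (∀ r : ℕ, 3 ≤ r → Upper r (⊤ : SimpleGraph (Fin (r + 1))) (r + 1) ∧
      ∃ s₀ : ℕ, ∀ s ≥ s₀,
        Unique r (r.choose 2 * s ^ 2 + r - 1) (⊤ : SimpleGraph (Fin (r + 1))) (TUM r s)) := by
  have hreal : ∀ (W : Type) [Fintype W] (F : SimpleGraph W) (r a b : ℕ), Real r F a b →
      r ≤ b := by
    intro W _ F r a b h
    obtain ⟨s, _, k, G, f, h1, _, h3, _⟩ := h 0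
    exact hTyp r s a b (Fin k) G f h1 h3
  refine ⟨?_, ?_⟩
  · intro W _ F r hr hχ hc
    obtain ⟨hcrit, hncol, hcol⟩ := hCrt W F r hχ hc
    refine ⟨?_, ?_, ?_⟩
    · intro C ε s₁ hε
      obtain ⟨m₀, hm₀⟩ := hStr W F r hr hcrit hcol C ε s₁ hε
      refine ⟨m₀, ?_⟩
      intro m hm V _ G hG hlam
      have h := hm₀ V G hG.free (by rw [hG.size]; exact hm) (by rw [hG.size]; exact hlam)
      rw [hG.size] at h
      exact h
    · have hex : ∃ n, ∃ a b, a + b = n ∧ Real r F a b := by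
        obtain ⟨b, hb⟩ := hNon W F r hr hncol
        exact ⟨0 + b, 0, b, rfl, hb⟩
      classical
      obtain ⟨a, b, hab, hR⟩ := Nat.find_spec hex
      have hmin : ∀ a' b', Real r F a' b' → a + b ≤ a' + b' := by
        intro a' b' h
        rw [hab]
        exact Nat.find_min' hex ⟨a', b', rfl, h⟩
      obtain ⟨h1, s₀, h2⟩ := hFin W F r a b hr hcrit hcol hR hmin
      refine ⟨a, b, s₀, hreal W F r a b hR, ?_, ?_⟩
      · intro ε hε
        obtain ⟨m₀, hm₀⟩ := h1 ε hε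
        refine ⟨m₀, ?_⟩
        intro m hm V _ G hG
        have := hm₀ m hm V G hG
        push_cast
        rw [← sub_sub]
        exact this
      · intro s hs m hm
        obtain ⟨⟨k, G₀, hG₀, hlam₀⟩, h3⟩ := h2 s hs m hm
        have := nonempty_of_not_colorable hG₀.notPartite
        have h5 : 0 ≤ lam G₀ := (hP (Fin k) G₀).1
        obtain ⟨k', G', hG', hmax'⟩ := hMax W F r m ⟨Fin k, inferInstance, G₀, hG₀⟩
        refine ⟨⟨k', G', hG', hmax'⟩, ?_⟩
        intro V _ G hG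
        have h6 : lam G₀ ^ 2 ≤ lam G ^ 2 := pow_le_pow_left₀ h5 (hG.2 (Fin k) G₀ hG₀) 2
        have h7 := hlam₀.trans h6
        refine ⟨?_, h3 V G hG.1 h7⟩
        push_cast
        rw [← sub_sub]
        exact h7
    · intro hfree
      have hR : Real r F 0 r := by
        refine real_of hRed F r 0 r hr 1 ?_
        intro s hs
        obtain ⟨⟨f, hf⟩, h2, h3, _⟩ := hTup r s hr hs
        exact ⟨_, inferInstance, TU r s, f, hf, hfree s, h2, h3⟩
      have hmin : ∀ a' b', Real r F a' b' → 0 + r ≤ a' + b' := by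
        intro a' b' h
        have := hreal W F r a' b' h
        omega
      obtain ⟨h1, s₀, h2⟩ := hFin W F r 0 r hr hcrit hcol hR hmin
      refine ⟨?_, s₀ + 1, ?_⟩
      · intro ε hε
        obtain ⟨m₀, hm₀⟩ := h1 ε hε
        refine ⟨m₀, ?_⟩
        intro m hm V _ G hG
        have := hm₀ m hm V G hG
        simpa using this
      · intro s hs
        obtain ⟨h3, h4, h5, _⟩ := hTup r s hr (by omega)
        refine unique_of hP hIso hCnt hLow F r 0 r _ s hr (by omega) (by ring) ?_ (TU r s) h3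
          (hfree s) h4 h5 ?_
        · exact (h2 s (by omega) _ (by ring)).2
        · intro V _ G f hf h6 h7 _
          exact hTuc r s V G f hr hf h6 h7
  · intro r hr
    obtain ⟨hχ, hc⟩ := hKcc r hr
    obtain ⟨hcrit, hncol, hcol⟩ := hCrt _ _ r hχ hc
    have hR : Real r (⊤ : SimpleGraph (Fin (r + 1))) 1 r := by
      refine real_of hRed _ r 1 r hr 2 ?_
      intro s hs
      obtain ⟨⟨f, hf⟩, h2, h3, h4⟩ := hTump r s hr hs
      exact ⟨_, inferInstance, TUM r s, f, hf, h4, h2, h3⟩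
    have hmin : ∀ a' b', Real r (⊤ : SimpleGraph (Fin (r + 1))) a' b' → 1 + r ≤ a' + b' := by
      intro a' b' h
      have h1 := hreal _ _ r a' b' h
      by_contra hlt
      have h2 : a' = 0 := by omega
      have h3 : b' = r := by omega
      subst h2 h3
      obtain ⟨s, hs, k, G, f, h4, h5, h6, h7⟩ := h 1
      obtain ⟨φ⟩ := hTuc b' s (Fin k) G f hr h4 h6 h7
      apply (hTup b' s hr hs).2.2.2
      intro hcon
      apply h5
      exact hcon.trans ⟨φ.symm.toCopy⟩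
    obtain ⟨h1, s₀, h2⟩ := hFin _ _ r 1 r hr hcrit hcol hR hmin
    refine ⟨?_, s₀ + 2, ?_⟩
    · intro ε hε
      obtain ⟨m₀, hm₀⟩ := h1 ε hε
      refine ⟨m₀, ?_⟩
      intro m hm V _ G hG
      have := hm₀ m hm V G hG
      push_cast at this ⊢
      have h8 : (m : ℝ) - ((r : ℝ) + 1) = (m : ℝ) - 1 - r := by ring
      rw [h8]
      exact this
    · intro s hs
      obtain ⟨h3, h4, h5, h6⟩ := hTump r s hr (by omega)
      refine unique_of hP hIso hCnt hLow _ r 1 r _ s hr (by omega) (by omega) ?_ (TUM r s) h3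
        h6 h4 h5 ?_
      · exact (h2 s (by omega) _ (by omega)).2
      · intro V _ G f hf h7 h8 h9
        exact hTumc r s V G f hr hf h7 h8 h9

end MP0c3a8f
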